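import Pool.Agent.H701U.Stubs

/-!
Project UC, task ADJ: operator norm form of SKEW
-/

namespace H701U

open scoped ENNReal InnerProductSpace

theorem t_ADJ (hSKEW : S_SKEW) (hPRJ : S_PRJ) : S_ADJ := by
  intro s T hs hT n
  have hc : 0 ≤ 6 * c s (n + 1) := by
    have h1 : 0 ≤ Real.log (s (n + 1 + 1) : ℝ) := Real.log_natCast_nonneg _
    unfold c
    positivity
  obtain ⟨-, -, hadj, -, -, hN, hN2, -⟩ := hPRJ (s (n + 1))
  refine ContinuousLinearMap.opNorm_le_bound _ hc fun x => ?_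
  set v : E := (T - ContinuousLinearMap.adjoint T) x with hv
  set z : E := v - P (s (n + 1)) v with hz
  have e1 : ((1 - P (s (n + 1))) * (T - ContinuousLinearMap.adjoint T)) x = z := rfl
  rw [e1]
  have hzN : z ∈ N (s (n + 1)) := hN2 v
  have hPz : P (s (n + 1)) z = 0 := (hN z).1 hzN
  have h0 : ⟪z, P (s (n + 1)) v⟫_ℂ = 0 := by
    rw [← hadj, ContinuousLinearMap.adjoint_inner_right, hPz, inner_zero_left]
  have h1 : ⟪z, z⟫_ℂ = ⟪z, T x⟫_ℂ - ⟪T z, x⟫_ℂ := by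
    have h2 : ⟪z, z⟫_ℂ = ⟪z, v⟫_ℂ := by
      conv_lhs => rw [hz]
      rw [← hz, inner_sub_right, h0, sub_zero]
    rw [h2, hv, ContinuousLinearMap.sub_apply, inner_sub_right,
      ContinuousLinearMap.adjoint_inner_right]
  have h3 := hSKEW s T hs hT n x z hzN
  rw [← h1] at h3
  have h4 : ‖⟪z, z⟫_ℂ‖ = ‖z‖ ^ 2 := by
    rw [inner_self_eq_norm_sq_to_K]
    simp
  rw [h4] at h3
  rcases eq_or_lt_of_le (norm_nonneg z) with h5 | h5
  · rw [← h5]; positivity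
  · have h6 : ‖z‖ * ‖z‖ ≤ (6 * c s (n + 1) * ‖x‖) * ‖z‖ := by
      rw [← pow_two]; exact h3
    exact le_of_mul_le_mul_right h6 h5

end H701U
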