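import Pool.Agent.H701U.Stubs

/-! Project UC (helper701), task BLK: the block function. -/

namespace H701U

namespace BLK

theorem lt_succ {s : ℕ → ℕ} (h : Adm s) (n : ℕ) : s n < s (n + 1) := by
  have := h.grow n
  omega

theorem mono {s : ℕ → ℕ} (h : Adm s) : StrictMono s := strictMono_nat_of_lt_succ (lt_succ h)

end BLK

theorem t_BLK : S_BLK := by
  intro s hs i n
  have hm := BLK.mono hs
  unfold blk
  rw [Nat.findGreatest_eq_iff]
  constructor
  · rintro ⟨h1, h2, h3⟩
    have h0 : s n ≤ i := by
      rcases Nat.eq_zero_or_pos n with h | h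
      · rw [h, hs.zero]; omega
      · exact h2 (by omega)
    refine ⟨h0, ?_⟩
    by_contra hc
    push Not at hc
    have h4 : n + 1 ≤ s (n + 1) := hm.le_apply
    exact h3 (Nat.lt_succ_self n) (h4.trans hc) hc
  · rintro ⟨h1, h2⟩
    have h4 : n ≤ s n := hm.le_apply
    refine ⟨h4.trans h1, fun _ => h1, ?_⟩
    intro k hk _ hki
    have h5 : s (n + 1) ≤ s k := hm.monotone hk
    omega

end H701U
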