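import Pool.Agent.H701U.Stubs

/-! CC: the weights are positive, decreasing and tend to `0`. -/

namespace H701U

namespace CC

theorem le_s (s : ℕ → ℕ) (h : Adm s) : ∀ n, n ≤ s n := by
  intro n
  induction n with
  | zero => exact Nat.zero_le _
  | succ n ih =>
    have := h.grow n
    omega

theorem mono_s (s : ℕ → ℕ) (h : Adm s) : Monotone s := by
  apply monotone_nat_of_le_succ
  intro n
  have := h.grow n
  omega

theorem hundred_le (s : ℕ → ℕ) (h : Adm s) (n : ℕ) : 100 ≤ s (n + 1) := by
  have := h.grow n
  omega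

theorem log_nonneg (s : ℕ → ℕ) (h : Adm s) (n : ℕ) : 0 ≤ Real.log (s (n + 1)) := by
  apply Real.log_nonneg
  have h1 := hundred_le s h n
  have h2 : (100 : ℝ) ≤ (s (n + 1) : ℝ) := by exact_mod_cast h1
  linarith

end CC

theorem t_CC : S_CC := by
  intro s h
  refine ⟨?_, ?_, ?_⟩
  · intro n
    have h1 := CC.log_nonneg s h n
    unfold c
    apply one_div_pos.mpr
    linarith
  · intro n k hnk
    have h1 := CC.log_nonneg s h n
    unfold c
    apply one_div_le_one_div_of_le
    · linarith
    · have h2 : s (n + 1) ≤ s (k + 1) := CC.mono_s s h (by omega)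
      have h3 : (s (n + 1) : ℝ) ≤ (s (k + 1) : ℝ) := by exact_mod_cast h2
      have h4 := CC.hundred_le s h n
      have h5 : (100 : ℝ) ≤ (s (n + 1) : ℝ) := by exact_mod_cast h4
      have h6 : Real.log (s (n + 1)) ≤ Real.log (s (k + 1)) :=
        Real.log_le_log (by linarith) h3
      linarith
  · have h1 : Filter.Tendsto (fun n : ℕ => ((s (n + 1) : ℕ) : ℝ)) Filter.atTop Filter.atTop := by
      apply Filter.tendsto_atTop_mono (f := fun n : ℕ => (n : ℝ))
      · intro n
        have := CC.le_s s h (n + 1)
        have h2 : n ≤ s (n + 1) := by omega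
        exact_mod_cast h2
      · exact tendsto_natCast_atTop_atTop
    have h2 : Filter.Tendsto (fun n : ℕ => Real.log (s (n + 1))) Filter.atTop Filter.atTop :=
      Real.tendsto_log_atTop.comp h1
    have h3 : Filter.Tendsto (fun n : ℕ => 1 + Real.log (s (n + 1)))
        Filter.atTop Filter.atTop := Filter.tendsto_atTop_add_const_left _ _ h2
    have h4 := h3.inv_tendsto_atTop
    refine h4.congr ?_
    intro n
    simp [c]

end H701U
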