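import Pool.Agent.H701U.Stubs

/-! Task COL: column sums. -/

namespace H701U

open Finset

theorem t_COL (hBLK : S_BLK) : S_COL := by
  intro s hs j n
  obtain ⟨b1, b2⟩ := (hBLK s hs j (blk s j)).mp rfl
  obtain ⟨b, hb⟩ : ∃ b, b = blk s j := ⟨_, rfl⟩
  rw [← hb] at b1 b2
  have hc0 : ∀ m, 0 < c s m := by
    intro m
    unfold c
    have : 0 ≤ Real.log (s (m + 1)) := Real.log_natCast_nonneg _
    positivity
  have hc1 : ∀ m, c s m ≤ 1 := by
    intro m
    unfold c
    have : 0 ≤ Real.log (s (m + 1)) := Real.log_natCast_nonneg _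
    rw [div_le_one (by linarith)]
    linarith
  by_cases hj : j + 1 < s (b + 1)
  · have h1 : ∀ i ∈ (range n).filter (fun i => j < i),
        a s i j ≤ if i < s (b + 1) then c s b / ((i : ℝ) - j) else 0 := by
      intro i hi
      rw [mem_filter] at hi
      by_cases hi2 : i < s (b + 1)
      · rw [if_pos hi2]
        have hbi : blk s i = b := (hBLK s hs i b).mpr ⟨by omega, hi2⟩
        unfold a
        rw [if_pos ⟨hi.2, Or.inl (by rw [hbi, ← hb])⟩, hbi]
      · rw [if_neg hi2]
        have hbi : blk s i ≠ b := fun h => by
          have := ((hBLK s hs i b).mp h).2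
          omega
        unfold a
        rw [if_neg]
        rintro ⟨_, h | h⟩
        · exact hbi (by rw [hb, h])
        · omega
    refine (sum_le_sum h1).trans ?_
    rw [← sum_filter]
    have hsub : ((range n).filter (fun i => j < i)).filter (fun i => i < s (b + 1)) ⊆
        Ico (j + 1) (s (b + 1)) := by
      intro i hi
      rw [mem_filter, mem_filter] at hi
      rw [mem_Ico]
      omega
    have h2 : ∑ i ∈ ((range n).filter (fun i => j < i)).filter (fun i => i < s (b + 1)),
        c s b / ((i : ℝ) - j) ≤ ∑ i ∈ Ico (j + 1) (s (b + 1)), c s b / ((i : ℝ) - j) := by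
      refine sum_le_sum_of_subset_of_nonneg hsub fun i hi _ => ?_
      rw [mem_Ico] at hi
      have h3 : (j : ℝ) + 1 ≤ i := by exact_mod_cast hi.1
      have := hc0 b
      have h4 : 0 < (i : ℝ) - j := by linarith
      positivity
    refine h2.trans ?_
    rw [sum_Ico_eq_sum_range]
    have h3 : ∑ k ∈ range (s (b + 1) - (j + 1)), c s b / (((j + 1 + k : ℕ) : ℝ) - j) ≤
        ∑ k ∈ range (s (b + 1)), c s b / ((k : ℝ) + 1) := by
      have e1 : ∀ k : ℕ, (((j + 1 + k : ℕ) : ℝ) - j) = (k : ℝ) + 1 := fun k => by
        push_cast; ring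
      simp only [e1]
      refine sum_le_sum_of_subset_of_nonneg (range_subset_range.mpr (Nat.sub_le _ _))
        fun k _ _ => ?_
      have := hc0 b
      positivity
    refine h3.trans ?_
    have h4 : ∑ k ∈ range (s (b + 1)), c s b / ((k : ℝ) + 1) =
        c s b * ((harmonic (s (b + 1)) : ℚ) : ℝ) := by
      unfold harmonic
      push_cast
      rw [mul_sum]
      refine sum_congr rfl fun k _ => ?_
      rw [div_eq_mul_inv]
    rw [h4]
    have h5 := harmonic_le_one_add_log (s (b + 1))
    have hlog : 0 ≤ Real.log (s (b + 1)) := Real.log_natCast_nonneg _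
    calc c s b * ((harmonic (s (b + 1)) : ℚ) : ℝ) ≤ c s b * (1 + Real.log (s (b + 1))) :=
          mul_le_mul_of_nonneg_left h5 (hc0 b).le
      _ = 1 := by
          unfold c
          have : 1 + Real.log (s (b + 1)) ≠ 0 := by linarith
          field_simp
  · have h1 : ∀ i ∈ (range n).filter (fun i => j < i), a s i j ≤ if i = j + 1 then 1 else 0 := by
      intro i hi
      rw [mem_filter] at hi
      by_cases hi2 : i = j + 1
      · rw [if_pos hi2]
        unfold a
        split_ifs with h
        · rw [hi2]
          push_cast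
          have := hc1 (blk s (j + 1))
          have e1 : ((j : ℝ) + 1 - j) = 1 := by ring
          rw [e1, div_one]
          exact this
        · exact zero_le_one
      · rw [if_neg hi2]
        unfold a
        rw [if_neg]
        rintro ⟨_, h | h⟩
        · have hbi : blk s i = b := by rw [hb, h]
          have := ((hBLK s hs i b).mp hbi).2
          omega
        · exact hi2 h
    refine (sum_le_sum h1).trans ?_
    rw [sum_ite_eq']
    split_ifs
    · exact le_rfl
    · exact zero_le_one

end H701U
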