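import Pool.Agent.H701U.Stubs

/-! Task CYC. -/

set_option autoImplicit false

namespace H701U

open Polynomial

theorem CYC.aeval_mem (T : E →L[ℂ] E) (M : Submodule ℂ E) (hT : ∀ x ∈ M, T x ∈ M) (p : ℂ[X])
    (g : E) (hg : g ∈ M) : aeval T p g ∈ M := by
  induction p using Polynomial.induction_on' with
  | add p q hp hq =>
    rw [map_add]
    exact M.add_mem hp hq
  | monomial n c =>
    have h1 : ∀ n : ℕ, (T ^ n) g ∈ M := by
      intro n
      induction n with
      | zero => simpa using hg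
      | succ n ih =>
        rw [pow_succ']
        exact hT _ ih
    rw [aeval_monomial, Algebra.algebraMap_eq_smul_one, smul_mul_assoc, one_mul]
    exact M.smul_mem c (h1 n)

theorem t_CYC (hPRJ : S_PRJ) : S_CYC := by
  intro T D hD h M hM hT k f hf hfk hne
  set g : E := ((f : ℕ → ℂ) k)⁻¹ • f with hg
  have hgM : g ∈ M := M.smul_mem _ hf
  have hgN : g ∈ N k := (N k).smul_mem _ hfk
  have hg1 : (g : ℕ → ℂ) k = 1 := by
    rw [hg, lp.coeFn_smul, Pi.smul_apply, smul_eq_mul, inv_mul_cancel₀ hne]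
  have hlim := (hPRJ 0).2.2.2.2.2.2.2 g
  have hDt : Filter.Tendsto D Filter.atTop Filter.atTop :=
    Filter.tendsto_atTop_mono hD Filter.tendsto_id
  have hlim2 := hlim.comp hDt
  have hcl : e k ∈ closure (M : Set E) := by
    rw [Metric.mem_closure_iff]
    intro ε hε
    obtain ⟨N1, hN1⟩ := Filter.eventually_atTop.1
      (hlim2.eventually (gt_mem_nhds (by positivity : (0 : ℝ) < ε / 4)))
    obtain ⟨N2, hN2⟩ := exists_nat_gt (2 / ε)
    obtain ⟨N3, hN3⟩ := exists_nat_gt ‖g‖
    set n : ℕ := max (max N1 N2) (max N3 (k + 1)) with hn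
    have a1 : N1 ≤ n := le_trans (le_max_left _ _) (le_max_left _ _)
    have a2 : N2 ≤ n := le_trans (le_max_right _ _) (le_max_left _ _)
    have a3 : N3 ≤ n := le_trans (le_max_left _ _) (le_max_right _ _)
    have a4 : k + 1 ≤ n := le_trans (le_max_right _ _) (le_max_right _ _)
    have b3 : (N3 : ℝ) ≤ n := by exact_mod_cast a3
    have b2 : (N2 : ℝ) ≤ n := by exact_mod_cast a2
    obtain ⟨p, hp⟩ := h n k (lt_of_lt_of_le (by omega) (hD n)) g hgN hg1 (by linarith)
    refine ⟨aeval T p g, CYC.aeval_mem T M hT p g hgM, ?_⟩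
    have c1 : 2 * ‖g - P (D n) g‖ < ε / 2 := by
      have := hN1 n a1
      simp only [Function.comp] at this
      linarith
    have c2 : 1 / (n + 1 : ℝ) ≤ ε / 2 := by
      rw [div_lt_iff₀ hε] at hN2
      rw [div_le_iff₀ (by positivity)]
      nlinarith
    rw [dist_comm, dist_eq_norm]
    linarith
  rwa [hM.closure_eq] at hcl

end H701U
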