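import Pool.Agent.H701U.Stubs

/-! Task DIR (helper756). -/

namespace H701U

open Polynomial

namespace DIR

theorem alg {R : Type*} [Ring R] {p A B : R} (hp : p * p = p) (hB : p * B * p = B)
    (hA : (1 - p) * A * (1 - p) = A) (m : ℕ) :
    (B + A) ^ m = B ^ m * p + A ^ m * (1 - p) := by
  have h1 : p * (1 - p) = 0 := by rw [mul_sub, mul_one, hp, sub_self]
  have h2 : (1 - p) * p = 0 := by rw [sub_mul, one_mul, hp, sub_self]
  have h3 : (1 - p) * (1 - p) = 1 - p := by rw [mul_sub, mul_one, h2, sub_zero]
  have pB : p * B = B := by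
    calc p * B = p * (p * B * p) := by rw [hB]
      _ = (p * p) * B * p := by simp only [mul_assoc]
      _ = B := by rw [hp, hB]
  have Bp : B * p = B := by
    calc B * p = (p * B * p) * p := by rw [hB]
      _ = p * B * (p * p) := by simp only [mul_assoc]
      _ = B := by rw [hp, hB]
  have pA : p * A = 0 := by
    calc p * A = p * ((1 - p) * A * (1 - p)) := by rw [hA]
      _ = (p * (1 - p)) * A * (1 - p) := by simp only [mul_assoc]
      _ = 0 := by rw [h1, zero_mul, zero_mul]
  have qA : (1 - p) * A = A := by rw [sub_mul, one_mul, pA, sub_zero]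
  have Aq : A * (1 - p) = A := by
    calc A * (1 - p) = ((1 - p) * A * (1 - p)) * (1 - p) := by rw [hA]
      _ = (1 - p) * A * ((1 - p) * (1 - p)) := by simp only [mul_assoc]
      _ = A := by rw [h3, hA]
  have qB : (1 - p) * B = 0 := by rw [sub_mul, one_mul, pB, sub_self]
  induction m with
  | zero => rw [pow_zero, pow_zero, pow_zero, one_mul, one_mul, add_sub_cancel]
  | succ m ih =>
    rw [pow_succ, ih, mul_add, add_mul, add_mul, mul_assoc, mul_assoc, mul_assoc, mul_assoc, pB, qB,
      pA, qA, mul_zero, mul_zero, add_zero, zero_add, pow_succ, pow_succ, mul_assoc, mul_assoc, Bp, Aq]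

end DIR

theorem t_DIR (hPRJ : S_PRJ) : S_DIR := by
  intro D A B hB hA p f
  have hp : P D * P D = P D := (hPRJ D).2.1
  have key : aeval (B + A) p = aeval B p * P D + aeval A p * (1 - P D) := by
    induction p using Polynomial.induction_on' with
    | add q r hq hr =>
      rw [map_add, map_add, map_add, hq, hr, add_mul, add_mul]
      abel
    | monomial m a =>
      rw [aeval_monomial, aeval_monomial, aeval_monomial, DIR.alg hp hB hA, mul_add, mul_assoc,
        mul_assoc]
  rw [key]
  simp only [ContinuousLinearMap.add_apply, ContinuousLinearMap.mul_apply,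
    ContinuousLinearMap.sub_apply, ContinuousLinearMap.one_apply]

end H701U
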