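import Mathlib

/-!
Project UC (MP_546dcb_an): a unicellular operator on `ℓ²(ℕ)` whose spectrum contains `0` and a
point `μ ≠ 0`.  Definitions.
-/

namespace H701U

open scoped ENNReal

/-- the Hilbert space `ℓ²(ℕ)` -/
abbrev E : Type := lp (fun _ : ℕ => ℂ) 2

/-- standard basis vector -/
noncomputable def e (k : ℕ) : E := lp.single 2 k (1 : ℂ)

/-- vectors supported in `[k, ∞)` -/
def N (k : ℕ) : Submodule ℂ E where
  carrier := {x | ∀ i, i < k → x i = 0}
  add_mem' := by
    intro x y hx hy i hi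
    have h1 := hx i hi
    have h2 := hy i hi
    simp only [lp.coeFn_add, Pi.add_apply, h1, h2, add_zero]
  zero_mem' := by
    intro i _
    simp only [lp.coeFn_zero, Pi.zero_apply]
  smul_mem' := by
    intro c x hx i hi
    have h1 := hx i hi
    simp only [lp.coeFn_smul, Pi.smul_apply, h1, smul_zero]

/-- orthogonal projection onto the first `D` coordinates -/
noncomputable def P (D : ℕ) : E →L[ℂ] E :=
  ∑ i ∈ Finset.range D, (innerSL ℂ (e i)).smulRight (e i)

/-- index of the block of `i`; block `n` is `[s n, s (n+1))` -/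
def blk (s : ℕ → ℕ) (i : ℕ) : ℕ := Nat.findGreatest (fun n => s n ≤ i) i

/-- the weight of block `n` -/
noncomputable def c (s : ℕ → ℕ) (n : ℕ) : ℝ := 1 / (1 + Real.log (s (n + 1)))

/-- the matrix of the operator -/
noncomputable def a (s : ℕ → ℕ) (i j : ℕ) : ℝ :=
  if j < i ∧ (blk s j = blk s i ∨ i = j + 1) then c s (blk s i) / ((i : ℝ) - j) else 0

/-- admissible sequences of block boundaries -/
structure Adm (s : ℕ → ℕ) : Prop where
  zero : s 0 = 0
  grow : ∀ n, 2 * s n + 100 ≤ s (n + 1)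

/-- `T` is the operator with matrix `a s` -/
def IsT (s : ℕ → ℕ) (T : E →L[ℂ] E) : Prop :=
  ∀ (x : E) (i : ℕ), (T x : ℕ → ℂ) i = ∑ j ∈ Finset.range i, (a s i j : ℂ) * x j

/-- `B` is a single nilpotent Jordan block on the first `D` coordinates, lower triangular -/
structure NilD (D : ℕ) (B : E →L[ℂ] E) : Prop where
  comp : P D * B * P D = B
  low : ∀ k, B (e k) ∈ N (k + 1)
  sub : ∀ k, k + 1 < D → (B (e k) : ℕ → ℂ) (k + 1) ≠ 0

end H701U
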