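import Pool.Agent.H701U.Stubs

/-!
HIL: Hilbert's inequality
-/

namespace H701U

namespace HIL

open MeasureTheory intervalIntegral

/-- characters -/
noncomputable def ex (n : ℤ) (t : ℝ) : ℂ := Complex.exp (2 * Real.pi * Complex.I * n * t)

theorem ex_cont (n : ℤ) : Continuous (ex n) := by unfold ex; fun_prop

theorem ex_mul (m n : ℤ) (t : ℝ) : ex m t * ex n t = ex (m + n) t := by
  unfold ex
  rw [← Complex.exp_add]
  congr 1
  push_cast
  ring

theorem ex_conj (n : ℤ) (t : ℝ) : (starRingEnd ℂ) (ex n t) = ex (-n) t := by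
  unfold ex
  rw [← Complex.exp_conj]
  congr 1
  simp only [map_mul, Complex.conj_ofReal, Complex.conj_I, map_ofNat, map_intCast]
  push_cast
  ring

theorem int_ex (n : ℤ) : ∫ t in (0 : ℝ)..1, ex n t = if n = 0 then 1 else 0 := by
  split_ifs with h
  · subst h
    simp [ex]
  · unfold ex
    have hn : (n : ℂ) ≠ 0 := by exact_mod_cast h
    have hc : (2 * Real.pi * Complex.I * n : ℂ) ≠ 0 :=
      mul_ne_zero Complex.two_pi_I_ne_zero hn
    rw [integral_exp_mul_complex hc]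
    have h1 : Complex.exp (2 * Real.pi * Complex.I * n * ((1 : ℝ) : ℂ)) = 1 := by
      rw [Complex.exp_eq_one_iff]
      exact ⟨n, by push_cast; ring⟩
    rw [h1]
    simp

theorem int_B (n : ℤ) : ∫ t in (0 : ℝ)..1, ((t : ℂ) - 1 / 2) * ex (-n) t =
    -1 / (2 * Real.pi * Complex.I * n) := by
  have h1 := bernoulliFourierCoeff_eq (k := 1) one_ne_zero n
  rw [bernoulliFourierCoeff, fourierCoeffOn_eq_integral] at h1
  simp only [sub_zero, ne_eq, one_ne_zero, not_false_eq_true, div_self, one_smul,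
    Nat.factorial_one, Nat.cast_one, pow_one] at h1
  rw [← h1]
  refine intervalIntegral.integral_congr fun t _ => ?_
  simp only [bernoulliFun_one, smul_eq_mul]
  rw [mul_comm]
  congr 1
  · rw [fourier_coe_apply]
    unfold ex
    congr 1
    push_cast
    simp
  · push_cast
    rfl

theorem gen (I : Finset ℕ) (x y : ℕ → ℂ) (w : ℝ → ℂ) (hw : Continuous w) :
    ∫ t in (0 : ℝ)..1, w t * ((∑ j ∈ I, x j * ex j t) *
      (starRingEnd ℂ) (∑ i ∈ I, y i * ex i t)) =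
    ∑ i ∈ I, ∑ j ∈ I, x j * (starRingEnd ℂ) (y i) * ∫ t in (0 : ℝ)..1,
      w t * ex (-((i : ℤ) - j)) t := by
  have h1 : ∀ t : ℝ, w t * ((∑ j ∈ I, x j * ex j t) *
      (starRingEnd ℂ) (∑ i ∈ I, y i * ex i t)) =
      ∑ i ∈ I, ∑ j ∈ I, x j * (starRingEnd ℂ) (y i) * (w t * ex (-((i : ℤ) - j)) t) := by
    intro t
    rw [map_sum, Finset.sum_mul_sum, Finset.sum_comm, Finset.mul_sum]
    refine Finset.sum_congr rfl fun i _ => ?_
    rw [Finset.mul_sum]
    refine Finset.sum_congr rfl fun j _ => ?_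
    rw [map_mul, ex_conj]
    have : ex (-((i : ℤ) - j)) t = ex j t * ex (-(i : ℤ)) t := by
      rw [ex_mul]
      congr 1
      ring
    rw [this]
    ring
  simp_rw [h1]
  rw [intervalIntegral.integral_finsetSum]
  · refine Finset.sum_congr rfl fun i _ => ?_
    rw [intervalIntegral.integral_finsetSum]
    · refine Finset.sum_congr rfl fun j _ => ?_
      rw [intervalIntegral.integral_const_mul]
    · intro j _
      exact (continuous_const.mul (hw.mul (ex_cont _))).intervalIntegrable _ _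
  · intro i _
    refine Continuous.intervalIntegrable ?_ _ _
    refine continuous_finsetSum _ fun j _ => ?_
    exact continuous_const.mul (hw.mul (ex_cont _))

theorem l2 (I : Finset ℕ) (x : ℕ → ℂ) :
    ∫ t in (0 : ℝ)..1, ‖∑ j ∈ I, x j * ex j t‖ ^ 2 = ∑ j ∈ I, ‖x j‖ ^ 2 := by
  have h := gen I x x (fun _ => 1) continuous_const
  have h2 : ∀ t : ℝ, (1 : ℂ) * ((∑ j ∈ I, x j * ex j t) *
      (starRingEnd ℂ) (∑ i ∈ I, x i * ex i t)) =
      ((‖∑ j ∈ I, x j * ex j t‖ ^ 2 : ℝ) : ℂ) := by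
    intro t
    rw [one_mul, Complex.mul_conj, Complex.normSq_eq_norm_sq]
  simp_rw [h2] at h
  rw [intervalIntegral.integral_ofReal] at h
  have h3 : ∑ i ∈ I, ∑ j ∈ I, x j * (starRingEnd ℂ) (x i) * ∫ t in (0 : ℝ)..1,
      (1 : ℂ) * ex (-((i : ℤ) - j)) t = ((∑ j ∈ I, ‖x j‖ ^ 2 : ℝ) : ℂ) := by
    push_cast
    refine Finset.sum_congr rfl fun i hi => ?_
    rw [Finset.sum_eq_single i]
    · simp only [one_mul]
      rw [int_ex, if_pos (by ring), mul_one, Complex.mul_conj, Complex.normSq_eq_norm_sq]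
      push_cast
      rfl
    · intro j _ hj
      simp only [one_mul]
      rw [int_ex, if_neg (by omega), mul_zero]
    · intro h
      exact absurd hi h
  rw [h3] at h
  exact_mod_cast h

theorem main (I : Finset ℕ) (x y : ℕ → ℂ) :
    ∑ i ∈ I, ∑ j ∈ I.erase i, x j * (starRingEnd ℂ) (y i) / ((i : ℂ) - j) =
    -(2 * Real.pi * Complex.I) * ∫ t in (0 : ℝ)..1, ((t : ℂ) - 1 / 2) *
      ((∑ j ∈ I, x j * ex j t) * (starRingEnd ℂ) (∑ i ∈ I, y i * ex i t)) := by
  rw [gen I x y (fun t => (t : ℂ) - 1 / 2) (by fun_prop), Finset.mul_sum]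
  refine Finset.sum_congr rfl fun i hi => ?_
  have hz : x i * (starRingEnd ℂ) (y i) / ((i : ℂ) - i) = 0 := by simp
  rw [Finset.sum_erase (f := fun j : ℕ => x j * (starRingEnd ℂ) (y i) / ((i : ℂ) - j)) _ hz,
    Finset.mul_sum]
  refine Finset.sum_congr rfl fun j _ => ?_
  rw [int_B]
  have hp : (2 * Real.pi * Complex.I : ℂ) ≠ 0 := Complex.two_pi_I_ne_zero
  push_cast
  by_cases hij : (i : ℂ) - j = 0
  · rw [hij]
    simp
  · field_simp

theorem amgm (a b ε : ℝ) (hε : 0 < ε) : a * b ≤ (ε * a ^ 2 + b ^ 2 / ε) / 2 := by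
  have h : 0 ≤ (ε * a - b) ^ 2 / ε := by positivity
  have h2 : (ε * a - b) ^ 2 / ε = ε * a ^ 2 - 2 * (a * b) + b ^ 2 / ε := by
    field_simp
    ring
  linarith

theorem bound (I : Finset ℕ) (x y : ℕ → ℂ) (ε : ℝ) (hε : 0 < ε) :
    ‖∑ i ∈ I, ∑ j ∈ I.erase i, x j * (starRingEnd ℂ) (y i) / ((i : ℂ) - j)‖ ≤
    Real.pi * ((ε * ∑ i ∈ I, ‖x i‖ ^ 2) + (∑ i ∈ I, ‖y i‖ ^ 2) / ε) / 2 := by
  rw [main, norm_mul]
  have h0 : ‖-(2 * Real.pi * Complex.I : ℂ)‖ = 2 * Real.pi := by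
    rw [norm_neg]
    simp [abs_of_pos Real.pi_pos]
  rw [h0]
  have hX : Continuous (fun t : ℝ => ∑ j ∈ I, x j * ex j t) :=
    continuous_finsetSum _ fun j _ => continuous_const.mul (ex_cont _)
  have hY : Continuous (fun t : ℝ => ∑ j ∈ I, y j * ex j t) :=
    continuous_finsetSum _ fun j _ => continuous_const.mul (ex_cont _)
  have h1 : ‖∫ t in (0 : ℝ)..1, ((t : ℂ) - 1 / 2) *
      ((∑ j ∈ I, x j * ex j t) * (starRingEnd ℂ) (∑ i ∈ I, y i * ex i t))‖ ≤
      ∫ t in (0 : ℝ)..1, (1 / 4) * (ε * ‖∑ j ∈ I, x j * ex j t‖ ^ 2 +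
        ‖∑ j ∈ I, y j * ex j t‖ ^ 2 / ε) := by
    refine intervalIntegral.norm_integral_le_of_norm_le zero_le_one ?_ ?_
    · refine Filter.Eventually.of_forall fun t ht => ?_
      rw [norm_mul, norm_mul, Complex.norm_conj]
      have e1 : ‖(t : ℂ) - 1 / 2‖ ≤ 1 / 2 := by
        have : (t : ℂ) - 1 / 2 = ((t - 1 / 2 : ℝ) : ℂ) := by push_cast; ring
        rw [this, Complex.norm_real, Real.norm_eq_abs, abs_le]
        constructor
        · linarith [ht.1]
        · linarith [ht.2]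
      have e2 := amgm ‖∑ j ∈ I, x j * ex j t‖ ‖∑ j ∈ I, y j * ex j t‖ ε hε
      calc ‖(t : ℂ) - 1 / 2‖ * (‖∑ j ∈ I, x j * ex j t‖ * ‖∑ j ∈ I, y j * ex j t‖)
          ≤ 1 / 2 * (‖∑ j ∈ I, x j * ex j t‖ * ‖∑ j ∈ I, y j * ex j t‖) := by gcongr
        _ ≤ 1 / 2 * ((ε * ‖∑ j ∈ I, x j * ex j t‖ ^ 2 +
            ‖∑ j ∈ I, y j * ex j t‖ ^ 2 / ε) / 2) := by gcongr
        _ = _ := by ring
    · refine Continuous.intervalIntegrable ?_ _ _
      exact continuous_const.mul ((continuous_const.mul (hX.norm.pow 2)).add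
        ((hY.norm.pow 2).div_const _))
  have h2 : ∫ t in (0 : ℝ)..1, (1 / 4) * (ε * ‖∑ j ∈ I, x j * ex j t‖ ^ 2 +
        ‖∑ j ∈ I, y j * ex j t‖ ^ 2 / ε) =
      (1 / 4) * ((ε * ∑ i ∈ I, ‖x i‖ ^ 2) + (∑ i ∈ I, ‖y i‖ ^ 2) / ε) := by
    rw [intervalIntegral.integral_const_mul, intervalIntegral.integral_add,
      intervalIntegral.integral_const_mul, intervalIntegral.integral_div, l2, l2]
    · exact (continuous_const.mul (hX.norm.pow 2)).intervalIntegrable _ _
    · exact ((hY.norm.pow 2).div_const _).intervalIntegrable _ _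
  rw [h2] at h1
  calc 2 * Real.pi * _ ≤ 2 * Real.pi * ((1 / 4) * ((ε * ∑ i ∈ I, ‖x i‖ ^ 2) +
      (∑ i ∈ I, ‖y i‖ ^ 2) / ε)) := by gcongr
    _ = _ := by ring

end HIL

theorem t_HIL : S_HIL := by
  intro I x y
  have hA0 : 0 ≤ ∑ i ∈ I, ‖x i‖ ^ 2 := by positivity
  have hB0 : 0 ≤ ∑ i ∈ I, ‖y i‖ ^ 2 := by positivity
  rcases hA0.eq_or_lt with hA | hA
  · have hx : ∀ i ∈ I, x i = 0 := by
      intro i hi
      have := (Finset.sum_eq_zero_iff_of_nonneg (fun i _ => by positivity)).1 hA.symm i hi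
      simpa using this
    have : ∑ i ∈ I, ∑ j ∈ I.erase i, x j * (starRingEnd ℂ) (y i) / ((i : ℂ) - j) = 0 := by
      refine Finset.sum_eq_zero fun i _ => Finset.sum_eq_zero fun j hj => ?_
      rw [hx j (Finset.mem_of_mem_erase hj)]
      simp
    rw [this, norm_zero]
    positivity
  rcases hB0.eq_or_lt with hB | hB
  · have hy : ∀ i ∈ I, y i = 0 := by
      intro i hi
      have := (Finset.sum_eq_zero_iff_of_nonneg (fun i _ => by positivity)).1 hB.symm i hi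
      simpa using this
    have : ∑ i ∈ I, ∑ j ∈ I.erase i, x j * (starRingEnd ℂ) (y i) / ((i : ℂ) - j) = 0 := by
      refine Finset.sum_eq_zero fun i hi => Finset.sum_eq_zero fun j hj => ?_
      rw [hy i hi]
      simp
    rw [this, norm_zero]
    positivity
  set A := ∑ i ∈ I, ‖x i‖ ^ 2
  set B := ∑ i ∈ I, ‖y i‖ ^ 2
  have sA : 0 < Real.sqrt A := Real.sqrt_pos.2 hA
  have sB : 0 < Real.sqrt B := Real.sqrt_pos.2 hB
  have h := HIL.bound I x y (Real.sqrt B / Real.sqrt A) (by positivity)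
  refine h.trans (le_of_eq ?_)
  have eA : A = Real.sqrt A * Real.sqrt A := (Real.mul_self_sqrt hA0).symm
  have eB : B = Real.sqrt B * Real.sqrt B := (Real.mul_self_sqrt hB0).symm
  have e1 : Real.sqrt B / Real.sqrt A * A = Real.sqrt A * Real.sqrt B := by
    rw [div_mul_eq_mul_div, div_eq_iff sA.ne']
    linear_combination (Real.sqrt B) * eA
  have e2 : B / (Real.sqrt B / Real.sqrt A) = Real.sqrt A * Real.sqrt B := by
    rw [div_div_eq_mul_div, div_eq_iff sB.ne']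
    linear_combination (Real.sqrt A) * eB
  show Real.pi * ((Real.sqrt B / Real.sqrt A * A) + B / (Real.sqrt B / Real.sqrt A)) / 2 = _
  rw [e1, e2]
  ring

end H701U
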