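import Pool.Agent.H701U.Stubs

/-!
LIP: polynomials with bounded coefficients are uniformly Lipschitz on operators (helper908).
-/

namespace H701U

open scoped ENNReal InnerProductSpace
open Finset Polynomial

namespace LIP

theorem pow_norm (S : E →L[ℂ] E) (hS : ‖S‖ ≤ 2) (m : ℕ) : ‖S ^ m‖ ≤ 2 ^ m := by
  induction m with
  | zero =>
    rw [pow_zero, pow_zero]
    exact ContinuousLinearMap.norm_id_le
  | succ m ih =>
    rw [pow_succ, pow_succ]
    refine (norm_mul_le _ _).trans ?_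
    gcongr

theorem pow_diff (S W : E →L[ℂ] E) (hS : ‖S‖ ≤ 2) (hW : ‖W‖ ≤ 2) (m : ℕ) :
    ‖S ^ m - W ^ m‖ ≤ m * 2 ^ m * ‖S - W‖ := by
  induction m with
  | zero => simp
  | succ m ih =>
    have h1 : S ^ (m + 1) - W ^ (m + 1) = S ^ m * (S - W) + (S ^ m - W ^ m) * W := by
      rw [pow_succ, pow_succ, mul_sub, sub_mul]
      abel
    have h2 : ‖S ^ m * (S - W)‖ ≤ 2 ^ m * ‖S - W‖ := by
      refine (norm_mul_le _ _).trans ?_
      have := pow_norm S hS m
      gcongr
    have h3 : ‖(S ^ m - W ^ m) * W‖ ≤ (m * 2 ^ m * ‖S - W‖) * 2 := by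
      refine (norm_mul_le _ _).trans ?_
      gcongr
    rw [h1]
    refine (norm_add_le _ _).trans ((add_le_add h2 h3).trans ?_)
    have h4 : 0 ≤ 2 ^ m * ‖S - W‖ := by positivity
    push_cast
    rw [pow_succ]
    nlinarith

end LIP

theorem t_LIP : S_LIP := by
  intro d K
  refine ⟨|K| * ∑ m ∈ range (d + 1), ((m : ℝ) * 2 ^ m), by positivity, ?_⟩
  intro p hp hK S W hS hW
  rw [aeval_eq_sum_range' (Nat.lt_succ_of_le hp) S, aeval_eq_sum_range' (Nat.lt_succ_of_le hp) W,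
    ← Finset.sum_sub_distrib]
  refine (norm_sum_le _ _).trans ?_
  rw [mul_sum, sum_mul]
  refine sum_le_sum fun m _ => ?_
  rw [← smul_sub, norm_smul]
  calc ‖p.coeff m‖ * ‖S ^ m - W ^ m‖ ≤ |K| * (m * 2 ^ m * ‖S - W‖) := by
        have h1 := LIP.pow_diff S W hS hW m
        have h2 := (hK m).trans (le_abs_self K)
        gcongr
    _ = |K| * (m * 2 ^ m) * ‖S - W‖ := by ring

end H701U
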