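import Pool.Agent.H701U.Stubs

/-!
Project UC (MP_546dcb_an): task LOW.
-/

namespace H701U

open scoped ENNReal InnerProductSpace
open Finset

namespace LOW

theorem mem_N {k : ℕ} {x : E} : x ∈ N k ↔ ∀ i, i < k → (x : ℕ → ℂ) i = 0 := Iff.rfl

theorem e_self (k : ℕ) : (e k : ℕ → ℂ) k = 1 := by
  unfold e
  rw [lp.single_apply]
  simp

theorem e_ne {k j : ℕ} (h : j ≠ k) : (e k : ℕ → ℂ) j = 0 := by
  unfold e
  rw [lp.single_apply]
  simp [h]

end LOW

theorem t_LOW (hPOS : S_POS) : S_LOW := by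
  intro s T hs hT
  obtain ⟨_, _, hpos⟩ := hPOS s hs
  refine ⟨?_, ?_, ?_⟩
  · intro k x hx
    rw [LOW.mem_N] at hx ⊢
    intro i hi
    rw [hT x i]
    apply Finset.sum_eq_zero
    intro j hj
    have hj' : j < i := Finset.mem_range.mp hj
    rw [hx j (by omega), mul_zero]
  · intro x
    rw [hT x 0]
    simp
  · intro k
    rw [hT (e k) (k + 1)]
    rw [Finset.sum_eq_single k]
    · rw [LOW.e_self, mul_one]
      exact Complex.ofReal_ne_zero.mpr (hpos k).ne'
    · intro j _ hj
      rw [LOW.e_ne hj, mul_zero]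
    · intro h
      exact absurd (Finset.mem_range.mpr (Nat.lt_succ_self k)) h

end H701U
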