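import Pool.Agent.H701U.Stubs

/-! NIL: compressions are nilpotent Jordan blocks (helper844). -/

namespace H701U

namespace NIL

theorem e_ne (k i : ℕ) (h : i ≠ k) : (e k : ℕ → ℂ) i = 0 := by
  unfold e
  rw [lp.single_apply]
  exact Pi.single_eq_of_ne h _

theorem e_mem (k : ℕ) : e k ∈ N k := fun i hi => e_ne k i (ne_of_lt hi)

theorem P_mem (hPRJ : S_PRJ) (D k : ℕ) (x : E) (hx : x ∈ N k) : P D x ∈ N k := by
  intro i hi
  rw [(hPRJ D).1 x i]
  split_ifs
  · exact hx i hi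
  · rfl

theorem P_e (hPRJ : S_PRJ) (D k : ℕ) (hk : k < D) : P D (e k) = e k := by
  ext i
  rw [(hPRJ D).1 (e k) i]
  split_ifs with h
  · rfl
  · rw [e_ne k i (by omega)]

end NIL

theorem t_NIL (hPRJ : S_PRJ) (hLOW : S_LOW) : S_NIL := by
  intro s T hs hT D
  have hPP := (hPRJ D).2.1
  obtain ⟨h1, -, h3⟩ := hLOW s T hs hT
  refine ⟨?_, fun k => ?_, fun k hk => ?_⟩
  · calc P D * (P D * T * P D) * P D = (P D * P D) * T * (P D * P D) := by
          simp only [mul_assoc]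
      _ = P D * T * P D := by rw [hPP]
  · have h4 : (P D * T * P D) (e k) = P D (T (P D (e k))) := rfl
    rw [h4]
    exact NIL.P_mem hPRJ D (k + 1) _ (h1 k _ (NIL.P_mem hPRJ D k _ (NIL.e_mem k)))
  · have h4 : (P D * T * P D) (e k) = P D (T (P D (e k))) := rfl
    rw [h4, NIL.P_e hPRJ D k (by omega), (hPRJ D).1, if_pos hk]
    exact h3 k

end H701U
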