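import Pool.Agent.H701U.Stubs

/-!
Project UC: polynomials with a prescribed jet at `0` which are small on `[-1, 1]`.
-/

namespace H701U

open scoped ENNReal InnerProductSpace
open Finset Polynomial

namespace POLY

theorem coeff_le_sum (r : ℂ[X]) (j : ℕ) :
    ‖r.coeff j‖ ≤ ∑ i ∈ range (r.natDegree + 1), ‖r.coeff i‖ := by
  by_cases hj : j < r.natDegree + 1
  · exact single_le_sum (f := fun i => ‖r.coeff i‖) (fun i _ => norm_nonneg _)
      (mem_range.2 hj)
  · rw [coeff_eq_zero_of_natDegree_lt (by omega), norm_zero]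
    exact sum_nonneg fun i _ => norm_nonneg _

theorem coeff_mul_le (q r : ℂ[X]) (R' : ℝ) (hq : ∀ i, ‖q.coeff i‖ ≤ R') (k : ℕ) :
    ‖(q * r).coeff k‖ ≤ (k + 1) * (|R'| * ∑ i ∈ range (r.natDegree + 1), ‖r.coeff i‖) := by
  rw [coeff_mul]
  refine (norm_sum_le _ _).trans ?_
  have h : ∀ x ∈ antidiagonal k, ‖q.coeff x.1 * r.coeff x.2‖ ≤
      |R'| * ∑ i ∈ range (r.natDegree + 1), ‖r.coeff i‖ := by
    intro x _
    rw [norm_mul]
    exact mul_le_mul ((hq _).trans (le_abs_self _)) (coeff_le_sum r _) (norm_nonneg _)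
      (abs_nonneg _)
  refine (sum_le_card_nsmul _ _ _ h).trans ?_
  rw [Nat.card_antidiagonal, nsmul_eq_mul]
  push_cast
  exact le_rfl

theorem eval_le (D : ℕ) (R' : ℝ) (q : ℂ[X]) (hd : q.natDegree < D) (h0 : q.coeff 0 = 1)
    (hq : ∀ i, ‖q.coeff i‖ ≤ R') (x : ℝ) (hx : |x| ≤ 1) :
    ‖q.eval (x : ℂ)‖ ≤ 1 + |x| * (D * |R'|) := by
  obtain ⟨D', rfl⟩ : ∃ D', D = D' + 1 := ⟨D - 1, by omega⟩
  rw [eval_eq_sum_range' hd, sum_range_succ']
  refine (norm_add_le _ _).trans ?_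
  have h1 : ‖q.coeff 0 * (x : ℂ) ^ 0‖ = 1 := by rw [h0]; simp
  rw [h1, add_comm]
  refine add_le_add le_rfl ?_
  refine (norm_sum_le _ _).trans ?_
  have h2 : ∀ i ∈ range D', ‖q.coeff (i + 1) * (x : ℂ) ^ (i + 1)‖ ≤ |x| * |R'| := by
    intro i _
    rw [norm_mul, norm_pow, Complex.norm_real, Real.norm_eq_abs, mul_comm]
    refine mul_le_mul ?_ ((hq _).trans (le_abs_self _)) (norm_nonneg _) (abs_nonneg _)
    rw [pow_succ]
    exact mul_le_of_le_one_left (abs_nonneg _) (pow_le_one₀ (abs_nonneg _) hx)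
  refine (sum_le_card_nsmul _ _ _ h2).trans ?_
  rw [card_range, nsmul_eq_mul]
  push_cast
  have h3 : 0 ≤ |x| * |R'| := by positivity
  nlinarith

end POLY

theorem t_POLY (hSUP : S_SUP) (hLIP : S_LIP) : S_POLY := by
  intro D R' hD
  have hDR : (0 : ℝ) < D * (|R'| + 1) := by
    have : (0 : ℝ) < D := by exact_mod_cast hD
    positivity
  obtain ⟨r, hr1, hr2⟩ := hSUP D (1 / (D * (|R'| + 1))) hD (by positivity)
  set S := ∑ i ∈ range (r.natDegree + 1), ‖r.coeff i‖ with hS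
  have hS0 : 0 ≤ S := sum_nonneg fun i _ => norm_nonneg _
  obtain ⟨Γ, hΓ, hL⟩ := hLIP (D + r.natDegree) (((D + r.natDegree : ℕ) + 1) * (|R'| * S))
  refine ⟨Γ, hΓ, fun q hd h0 hq => ⟨q * r, ?_, ?_, ?_⟩⟩
  · have : q * r - q = q * (r - 1) := by ring
    rw [this]
    exact Dvd.dvd.mul_left hr1 q
  · intro x hx
    obtain ⟨h1, h2⟩ := hr2 x hx
    rw [eval_mul, norm_mul]
    have h3 := POLY.eval_le D R' q hd h0 hq x hx
    have h4 : ‖q.eval (x : ℂ)‖ * ‖r.eval (x : ℂ)‖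
        ≤ (1 + |x| * (D * |R'|)) * ‖r.eval (x : ℂ)‖ :=
      mul_le_mul_of_nonneg_right h3 (norm_nonneg _)
    have h5 : |x| * ‖r.eval (x : ℂ)‖ * (D * |R'|) ≤ 1 := by
      calc |x| * ‖r.eval (x : ℂ)‖ * (D * |R'|)
          ≤ 1 / (D * (|R'| + 1)) * (D * |R'|) :=
            mul_le_mul_of_nonneg_right h2 (by positivity)
        _ ≤ 1 := by
            rw [div_mul_eq_mul_div, one_mul, div_le_one hDR]
            have : (0 : ℝ) ≤ D := by positivity
            nlinarith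
    nlinarith
  · have hdeg : (q * r).natDegree ≤ D + r.natDegree :=
      natDegree_mul_le.trans (by omega)
    apply hL _ hdeg
    intro i
    by_cases hi : i ≤ D + r.natDegree
    · refine (POLY.coeff_mul_le q r R' hq i).trans ?_
      refine mul_le_mul_of_nonneg_right ?_ (by positivity)
      have : (i : ℝ) ≤ ((D + r.natDegree : ℕ) : ℝ) := by exact_mod_cast hi
      linarith
    · rw [coeff_eq_zero_of_natDegree_lt (by omega), norm_zero]
      positivity

end H701U
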