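import Pool.Agent.H701U.Stubs

/-!
Positivity of the entries (task POS).
-/

namespace H701U

theorem POS.c_pos (s : ℕ → ℕ) (h : Adm s) (n : ℕ) : 0 < c s n := by
  unfold c
  have h1 := h.grow n
  have h2 : (1 : ℝ) ≤ (s (n + 1) : ℝ) := by
    have : 1 ≤ s (n + 1) := by omega
    exact_mod_cast this
  have h3 := Real.log_nonneg h2
  positivity

theorem t_POS : S_POS := by
  intro s h
  refine ⟨?_, ?_, ?_⟩
  · intro i j
    unfold a
    split_ifs with h1
    · have h2 := (POS.c_pos s h (blk s i)).le
      have h3 : (0 : ℝ) ≤ (i : ℝ) - j := by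
        have : (j : ℝ) ≤ i := by exact_mod_cast h1.1.le
        linarith
      exact div_nonneg h2 h3
    · exact le_rfl
  · intro i j hij
    unfold a
    rw [if_neg]
    rintro ⟨h1, -⟩
    omega
  · intro j
    unfold a
    rw [if_pos ⟨Nat.lt_succ_self j, Or.inr rfl⟩]
    have h2 := POS.c_pos s h (blk s (j + 1))
    have h3 : ((j + 1 : ℕ) : ℝ) - j = 1 := by push_cast; ring
    rw [h3, div_one]
    exact h2

end H701U
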