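import Pool.Agent.H701U.Stubs

/-!
Task POW (helper885).
-/

namespace H701U

open scoped ENNReal InnerProductSpace
open Finset Polynomial

namespace POW

theorem N_mono {k l : ℕ} (h : k ≤ l) {x : E} (hx : x ∈ N l) : x ∈ N k :=
  fun i hi => hx i (lt_of_lt_of_le hi h)

theorem P_apply (D : ℕ) (x : E) : P D x = ∑ i ∈ range D, ((x : ℕ → ℂ) i) • e i := by
  unfold P
  rw [ContinuousLinearMap.sum_apply]
  refine sum_congr rfl fun i _ => ?_
  rw [ContinuousLinearMap.smulRight_apply, innerSL_apply_apply]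
  congr 1
  unfold e
  rw [lp.inner_single_left]
  simp

theorem step (D : ℕ) (B : E →L[ℂ] E) (hP : P D * P D = P D) (hB : NilD D B) (k : ℕ) (x : E)
    (hx : x ∈ N k) : B x ∈ N (k + 1) := by
  have h1 : B * P D = B := by
    rw [← hB.comp, mul_assoc, hP]
  have h2 : B x = B (P D x) := by
    conv_lhs => rw [← h1]
    rfl
  rw [h2, P_apply, map_sum]
  refine Submodule.sum_mem _ fun i _ => ?_
  rw [map_smul]
  by_cases hik : i < k
  · rw [hx i hik, zero_smul]
    exact Submodule.zero_mem _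
  · exact Submodule.smul_mem _ _ (N_mono (by omega) (hB.low i))

theorem pow_mem (D : ℕ) (B : E →L[ℂ] E) (hP : P D * P D = P D) (hB : NilD D B) (m : ℕ) (x : E) :
    (B ^ m) x ∈ N m := by
  induction m with
  | zero => exact fun i hi => absurd hi (Nat.not_lt_zero i)
  | succ m ih =>
    rw [pow_succ']
    exact step D B hP hB m _ ih

end POW

theorem t_POW (hPRJ : S_PRJ) : S_POW := by
  intro D B hD hB
  obtain ⟨-, hP, -, -, -, hN, -, -⟩ := hPRJ D
  have h1 : P D * B = B := by
    rw [← hB.comp, ← mul_assoc, ← mul_assoc, hP]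
  have h2 : P D * B ^ D = B ^ D := by
    obtain ⟨m, rfl⟩ : ∃ m, D = m + 1 := ⟨D - 1, by omega⟩
    rw [pow_succ', ← mul_assoc, h1]
  ext x : 1
  have h3 := (hN _).1 (POW.pow_mem D B hP hB D x)
  have h4 : (P D * B ^ D) x = 0 := h3
  rw [h2] at h4
  rw [h4]
  rfl

end H701U
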