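import Pool.Agent.H701U.Stubs

namespace H701U

open scoped ENNReal InnerProductSpace
open Finset Polynomial

namespace PRE

theorem mono {s : ℕ → ℕ} (hs : Adm s) : Monotone s :=
  monotone_nat_of_le_succ fun n => by have := hs.grow n; omega

theorem key (hBLK : S_BLK) {s s' : ℕ → ℕ} (hs : Adm s) (hs' : Adm s') {n : ℕ}
    (h : ∀ i, i ≤ n + 1 → s i = s' i) {i : ℕ} (hi : i < s (n + 1)) :
    blk s i = blk s' i ∧ c s (blk s i) = c s' (blk s' i) := by
  obtain ⟨h1, h2⟩ := (hBLK s hs i (blk s i)).1 rfl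
  have hb : blk s i ≤ n := by
    by_contra hcon
    have h3 : n + 1 ≤ blk s i := by omega
    have h4 := mono hs h3
    omega
  have h5 : blk s' i = blk s i := by
    rw [hBLK s' hs' i (blk s i)]
    rw [← h _ (by omega), ← h _ (by omega)]
    exact ⟨h1, h2⟩
  refine ⟨h5.symm, ?_⟩
  rw [h5]
  unfold c
  rw [h _ (by omega)]

theorem entry (hBLK : S_BLK) {s s' : ℕ → ℕ} (hs : Adm s) (hs' : Adm s') {n : ℕ}
    (h : ∀ i, i ≤ n + 1 → s i = s' i) {i j : ℕ} (hi : i < s (n + 1)) (hj : j < i) :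
    a s i j = a s' i j := by
  obtain ⟨h1, h2⟩ := key hBLK hs hs' h hi
  obtain ⟨h3, -⟩ := key hBLK hs hs' h (hj.trans hi)
  unfold a
  rw [h2, h1, h3]

end PRE

theorem t_PRE (hPRJ : S_PRJ) (hBLK : S_BLK) : S_PRE := by
  intro s s' T T' hs hs' hT hT' n h
  refine ContinuousLinearMap.ext fun x => ?_
  ext i
  have hP := (hPRJ (s (n + 1))).1
  change (P (s (n + 1)) (T (P (s (n + 1)) x)) : ℕ → ℂ) i
    = (P (s (n + 1)) (T' (P (s (n + 1)) x)) : ℕ → ℂ) i
  rw [hP, hP]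
  split_ifs with hi
  · rw [hT, hT']
    refine Finset.sum_congr rfl fun j hj => ?_
    rw [PRE.entry hBLK hs hs' h hi (Finset.mem_range.1 hj)]
  · rfl

end H701U
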