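import Pool.Agent.H701U.Stubs

open scoped ENNReal

namespace H701U.PRJ

open H701U

lemma inner_e (j : ℕ) (x : E) : inner ℂ (e j) x = x j := by
  unfold e
  rw [lp.inner_single_left]
  simp

lemma e_apply (j i : ℕ) : (e j : ℕ → ℂ) i = if i = j then 1 else 0 := by
  unfold e
  by_cases h : i = j
  · subst h
    simp
  · rw [if_neg h, lp.single_apply_ne _ _ _ h]

lemma P_apply (D : ℕ) (x : E) : P D x = ∑ j ∈ Finset.range D, (x j) • e j := by
  unfold P
  rw [ContinuousLinearMap.sum_apply]
  refine Finset.sum_congr rfl fun j _ => ?_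
  rw [ContinuousLinearMap.smulRight_apply, innerSL_apply_apply, inner_e]

lemma P_coord (D : ℕ) (x : E) (i : ℕ) : (P D x : ℕ → ℂ) i = if i < D then x i else 0 := by
  rw [P_apply]
  have : ((∑ j ∈ Finset.range D, (x j) • e j : E) : ℕ → ℂ) i
      = ∑ j ∈ Finset.range D, (x j) * (e j : ℕ → ℂ) i := by
    rw [lp.coeFn_sum, Finset.sum_apply]
    refine Finset.sum_congr rfl fun j _ => ?_
    rw [lp.coeFn_smul, Pi.smul_apply, smul_eq_mul]
  rw [this]
  simp_rw [e_apply]
  simp

lemma PP (D : ℕ) : P D * P D = P D := by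
  ext x i
  rw [ContinuousLinearMap.mul_apply, P_coord, P_coord]
  split_ifs <;> rfl

lemma P_adj (D : ℕ) : ContinuousLinearMap.adjoint (P D) = P D := by
  symm
  rw [ContinuousLinearMap.eq_adjoint_iff]
  intro x y
  rw [P_apply, P_apply, sum_inner, inner_sum]
  refine Finset.sum_congr rfl fun j _ => ?_
  rw [inner_smul_left, inner_smul_right, inner_e, ← inner_conj_symm, inner_e]
  ring

lemma norm_le (A : E →L[ℂ] E) (h1 : A * A = A) (h2 : ContinuousLinearMap.adjoint A = A) :
    ‖A‖ ≤ 1 := by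
  refine ContinuousLinearMap.opNorm_le_bound _ zero_le_one fun x => ?_
  rw [one_mul]
  have h3 : inner ℂ (A x) (A x) = inner ℂ x (A x) := by
    have := ContinuousLinearMap.adjoint_inner_left A (A x) x
    rw [h2, ← ContinuousLinearMap.mul_apply, h1] at this
    exact this
  have h4 : ‖A x‖ ^ 2 ≤ ‖x‖ * ‖A x‖ := by
    have h5 : ‖inner ℂ (A x) (A x)‖ = ‖A x‖ ^ 2 := by
      rw [inner_self_eq_norm_sq_to_K]
      simp
    rw [← h5, h3]
    exact norm_inner_le_norm _ _
  rcases (norm_nonneg (A x)).eq_or_lt with h0 | h0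
  · rw [← h0]
    exact norm_nonneg _
  · nlinarith

lemma tendsto (x : E) : Filter.Tendsto (fun n => ‖x - P n x‖) Filter.atTop (nhds 0) := by
  have h1 : HasSum (fun i => lp.single 2 i (x i)) x := lp.hasSum_single (by norm_num) x
  have h2 := h1.tendsto_sum_nat
  have h3 : ∀ n, ∑ i ∈ Finset.range n, lp.single 2 i (x i) = P n x := by
    intro n
    rw [P_apply]
    refine Finset.sum_congr rfl fun j _ => ?_
    unfold e
    rw [← lp.single_smul, smul_eq_mul, mul_one]
  simp_rw [h3] at h2
  have h4 := (tendsto_const_nhds (x := x)).sub h2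
  rw [sub_self] at h4
  simpa using h4.norm

end H701U.PRJ

namespace H701U

theorem t_PRJ : S_PRJ := by
  intro D
  have h1 := PRJ.P_coord D
  have hQ : ∀ (x : E) (i : ℕ), (x - P D x : E) i = if i < D then 0 else x i := by
    intro x i
    rw [lp.coeFn_sub, Pi.sub_apply, h1]
    split_ifs
    · rw [sub_self]
    · rw [sub_zero]
  refine ⟨h1, PRJ.PP D, PRJ.P_adj D, PRJ.norm_le _ (PRJ.PP D) (PRJ.P_adj D), ?_, ?_, ?_,
    PRJ.tendsto⟩
  · apply PRJ.norm_le
    · rw [mul_sub, mul_one, sub_mul, one_mul, PRJ.PP, sub_self, sub_zero]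
    · rw [map_sub, PRJ.P_adj]
      congr 1
      exact ContinuousLinearMap.adjoint_id
  · intro x
    constructor
    · intro hx
      ext i
      rw [h1]
      split_ifs with hi
      · rw [hx i hi]; rfl
      · rfl
    · intro hx i hi
      have := h1 x i
      rw [hx, if_pos hi] at this
      rw [← this]
      rfl
  · intro x i hi
    rw [hQ, if_pos hi]

end H701U
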