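import Pool.Agent.H701U.Stubs

/-! Project UC, task PWR: powers do not decay. -/

set_option autoImplicit false

namespace H701U

open scoped ENNReal InnerProductSpace NNReal

theorem PWR.pow_norm (T : E →L[ℂ] E) (hT : ‖T‖ ≤ 1) (k : ℕ) (x : E) : ‖(T ^ k) x‖ ≤ ‖x‖ := by
  induction k with
  | zero => exact le_rfl
  | succ k ih =>
    have e1 : (T ^ (k + 1)) x = T ((T ^ k) x) := by
      rw [pow_succ']
      rfl
    rw [e1]
    exact ((T.le_opNorm _).trans (mul_le_of_le_one_left (norm_nonneg _) hT)).trans ih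

theorem PWR.pow_mem (T : E →L[ℂ] E) (d : ℕ) (h : ∀ x ∈ N d, T x ∈ N d) (k : ℕ) :
    ∀ x ∈ N d, (T ^ k) x ∈ N d := by
  induction k with
  | zero =>
    intro x hx
    simpa using hx
  | succ k ih =>
    intro x hx
    rw [pow_succ']
    exact h _ (ih x hx)

theorem PWR.key (T : E →L[ℂ] E) (d : ℕ) (δ : ℝ) (hδ : 0 ≤ δ) (hT : ‖T‖ ≤ 1)
    (hN : ∀ x ∈ N d, T x ∈ N d)
    (h : ∀ x y : E, x ∈ N d → y ∈ N d → ‖⟪y, T x⟫_ℂ - ⟪T y, x⟫_ℂ‖ ≤ δ * ‖x‖ * ‖y‖) (k : ℕ) :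
    ∀ x y : E, x ∈ N d → y ∈ N d →
      ‖⟪y, (T ^ k) x⟫_ℂ - ⟪(T ^ k) y, x⟫_ℂ‖ ≤ k * δ * ‖x‖ * ‖y‖ := by
  induction k with
  | zero =>
    intro x y _ _
    simp
  | succ k ih =>
    intro x y hx hy
    have e1 : (T ^ (k + 1)) x = T ((T ^ k) x) := by
      rw [pow_succ']
      rfl
    have e2 : (T ^ (k + 1)) y = (T ^ k) (T y) := by
      rw [pow_succ]
      rfl
    rw [e1, e2]
    have h1 := h ((T ^ k) x) y (PWR.pow_mem T d hN k x hx) hy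
    have h2 := ih x (T y) hx (hN y hy)
    have h3 : ⟪y, T ((T ^ k) x)⟫_ℂ - ⟪(T ^ k) (T y), x⟫_ℂ =
        (⟪y, T ((T ^ k) x)⟫_ℂ - ⟪T y, (T ^ k) x⟫_ℂ) +
        (⟪T y, (T ^ k) x⟫_ℂ - ⟪(T ^ k) (T y), x⟫_ℂ) := by ring
    rw [h3]
    refine (norm_add_le _ _).trans ?_
    have h4 : δ * ‖(T ^ k) x‖ * ‖y‖ ≤ δ * ‖x‖ * ‖y‖ := by
      have := PWR.pow_norm T hT k x
      gcongr
    have h5 : (k : ℝ) * δ * ‖x‖ * ‖T y‖ ≤ k * δ * ‖x‖ * ‖y‖ := by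
      have := (T.le_opNorm y).trans (mul_le_of_le_one_left (norm_nonneg _) hT)
      gcongr
    have h6 : ((k + 1 : ℕ) : ℝ) = (k : ℝ) + 1 := by push_cast; ring
    rw [h6]
    linarith

theorem PWR.step (T : E →L[ℂ] E) (d : ℕ) (δ : ℝ) (hδ : 0 ≤ δ) (hT : ‖T‖ ≤ 1)
    (hN : ∀ x ∈ N d, T x ∈ N d)
    (h : ∀ x y : E, x ∈ N d → y ∈ N d → ‖⟪y, T x⟫_ℂ - ⟪T y, x⟫_ℂ‖ ≤ δ * ‖x‖ * ‖y‖) (k : ℕ)
    (u : E) (hu : u ∈ N d) (hu1 : ‖u‖ = 1) :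
    ‖(T ^ k) u‖ ^ 2 - k * δ ≤ ‖(T ^ (2 * k)) u‖ := by
  have h1 := PWR.key T d δ hδ hT hN h k ((T ^ k) u) u (PWR.pow_mem T d hN k u hu) hu
  rw [hu1, mul_one] at h1
  have h2 : (T ^ k) ((T ^ k) u) = (T ^ (2 * k)) u := by
    rw [two_mul, pow_add]
    rfl
  rw [h2] at h1
  have h3 : ‖⟪(T ^ k) u, (T ^ k) u⟫_ℂ‖ = ‖(T ^ k) u‖ ^ 2 := by
    rw [inner_self_eq_norm_sq_to_K]
    simp
  have h4 : ‖⟪u, (T ^ (2 * k)) u⟫_ℂ‖ ≤ ‖(T ^ (2 * k)) u‖ := by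
    have := norm_inner_le_norm (𝕜 := ℂ) u ((T ^ (2 * k)) u)
    rwa [hu1, one_mul] at this
  have h5 : ‖⟪(T ^ k) u, (T ^ k) u⟫_ℂ‖ ≤ ‖⟪u, (T ^ (2 * k)) u⟫_ℂ‖ +
      ‖⟪u, (T ^ (2 * k)) u⟫_ℂ - ⟪(T ^ k) u, (T ^ k) u⟫_ℂ‖ := by
    have := norm_sub_norm_le ⟪(T ^ k) u, (T ^ k) u⟫_ℂ ⟪u, (T ^ (2 * k)) u⟫_ℂ
    rw [norm_sub_rev] at this
    linarith
  have h6 : (k : ℝ) * δ * ‖(T ^ k) u‖ ≤ k * δ := by
    have := PWR.pow_norm T hT k u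
    rw [hu1] at this
    exact mul_le_of_le_one_right (by positivity) this
  linarith

theorem t_PWR : S_PWR := by
  intro T d δ u hT hN hu hu1 hq hδ0 h q
  have hδ : ∀ n, 0 ≤ δ n := by
    intro n
    have := h n (u n) (u n) (hu n) (hu n)
    rw [hu1 n, mul_one, mul_one] at this
    exact (norm_nonneg _).trans this
  have main : ∀ q : ℕ, ∀ L : ℝ, L < (1 / 4 : ℝ) ^ (2 ^ q) →
      ∀ᶠ n in Filter.atTop, L ≤ ‖(T ^ (2 ^ q)) (u n)‖ := by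
    intro q
    induction q with
    | zero =>
      intro L hL
      refine Filter.Eventually.of_forall fun n => ?_
      rw [pow_zero, pow_one] at hL ⊢
      have h1 := hq n
      have h2 := (Complex.re_le_norm ⟪u n, T (u n)⟫_ℂ).trans (norm_inner_le_norm (𝕜 := ℂ) (u n) (T (u n)))
      rw [hu1 n, one_mul] at h2
      linarith
    | succ q ih =>
      intro L hL
      have ha : (0 : ℝ) < (1 / 4 : ℝ) ^ (2 ^ q) := by positivity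
      have hL2 : L < ((1 / 4 : ℝ) ^ (2 ^ q)) ^ 2 := by
        rw [← pow_mul, ← pow_succ]
        exact hL
      -- an intermediate value
      obtain ⟨L', hL'0, hL'1, hL'2⟩ : ∃ L' : ℝ, 0 ≤ L' ∧ L' < (1 / 4 : ℝ) ^ (2 ^ q) ∧ L < L' ^ 2 := by
        set a : ℝ := (1 / 4 : ℝ) ^ (2 ^ q) with haa
        have h1 : Real.sqrt (max L 0) < a := by
          rw [Real.sqrt_lt' ha]
          exact max_lt hL2 (by positivity)
        obtain ⟨L', h2, h3⟩ := exists_between h1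
        refine ⟨L', (Real.sqrt_nonneg _).trans h2.le, h3, ?_⟩
        have h4 := (Real.sqrt_lt' ((Real.sqrt_nonneg _).trans_lt h2)).1 h2
        exact (le_max_left _ _).trans_lt h4
      have h1 : ∀ᶠ n in Filter.atTop, ((2 ^ q : ℕ) : ℝ) * δ n < L' ^ 2 - L := by
        have h2 : Filter.Tendsto (fun n => ((2 ^ q : ℕ) : ℝ) * δ n) Filter.atTop
            (nhds (((2 ^ q : ℕ) : ℝ) * 0)) := hδ0.const_mul _
        rw [mul_zero] at h2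
        exact h2.eventually_lt_const (by linarith)
      filter_upwards [ih L' hL'1, h1] with n hn1 hn2
      have h3 := PWR.step T (d n) (δ n) (hδ n) hT (hN n) (h n) (2 ^ q) (u n) (hu n) (hu1 n)
      have h4 : L' ^ 2 ≤ ‖(T ^ (2 ^ q)) (u n)‖ ^ 2 := pow_le_pow_left₀ hL'0 hn1 2
      have h5 : 2 * 2 ^ q = 2 ^ (q + 1) := by rw [pow_succ, mul_comm]
      rw [h5] at h3
      linarith
  apply le_of_forall_lt
  intro L hL
  obtain ⟨L', hL1, hL2⟩ := exists_between hL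
  obtain ⟨n, hn⟩ := (main q L' hL2).exists
  have h1 := (T ^ (2 ^ q)).le_opNorm (u n)
  rw [hu1 n, mul_one] at h1
  linarith

end H701U
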