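import Pool.Agent.H701U.Stubs

/-! Project UC, task RAD: a nonzero point of the spectrum. -/

set_option autoImplicit false

namespace H701U

open scoped ENNReal InnerProductSpace NNReal

theorem RAD.nontrivial : Nontrivial E := by
  refine ⟨⟨e 0, 0, ?_⟩⟩
  intro h
  have h1 : (e 0 : ℕ → ℂ) 0 = 1 := lp.single_apply_self (E := fun _ : ℕ => ℂ) 2 0 (1 : ℂ)
  rw [h] at h1
  have h2 : ((0 : E) : ℕ → ℂ) 0 = 0 := rfl
  rw [h2] at h1
  exact zero_ne_one h1

theorem t_RAD : S_RAD := by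
  intro T hT
  have hE : Nontrivial E := RAD.nontrivial
  have h1 := spectrum.pow_norm_pow_one_div_tendsto_nhds_spectralRadius T
  have h2 : Filter.Tendsto (fun q : ℕ => 2 ^ q) Filter.atTop Filter.atTop :=
    Filter.tendsto_atTop_mono (fun q => (Nat.lt_two_pow_self (n := q)).le) Filter.tendsto_id
  have h3 := h1.comp h2
  have h4 : ENNReal.ofReal (1 / 4) ≤ spectralRadius ℂ T := by
    refine ge_of_tendsto' h3 fun q => ?_
    apply ENNReal.ofReal_le_ofReal
    have h5 := hT q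
    have hk : ((2 ^ q : ℕ) : ℝ) ≠ 0 := by positivity
    calc (1 / 4 : ℝ) = (((1 / 4 : ℝ) ^ (2 ^ q)) ^ (1 / ((2 ^ q : ℕ) : ℝ))) := by
          rw [one_div ((2 ^ q : ℕ) : ℝ), Real.pow_rpow_inv_natCast (by norm_num) (by positivity)]
      _ ≤ ‖T ^ (2 ^ q)‖ ^ (1 / ((2 ^ q : ℕ) : ℝ)) :=
          Real.rpow_le_rpow (by positivity) h5 (by positivity)
  obtain ⟨μ, hμ, hμ2⟩ := spectrum.exists_nnnorm_eq_spectralRadius T
  refine ⟨μ, hμ, ?_⟩
  rw [← hμ2] at h4
  rw [← ENNReal.ofReal_coe_nnreal] at h4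
  have h5 := (ENNReal.ofReal_le_ofReal_iff (by positivity)).1 h4
  exact h5

end H701U
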