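import Pool.Agent.H701U.Stubs

set_option autoImplicit false

namespace H701U

namespace REC

/-- finite stages -/
def tt (G : (ℕ → ℕ) → ℕ → ℕ) : ℕ → (ℕ → ℕ)
  | 0 => fun i => if i = 1 then 100 else 0
  | n + 1 => Function.update (tt G n) (n + 2) (max (2 * tt G n (n + 1) + 100) (G (tt G n) n))

theorem tt_succ (G : (ℕ → ℕ) → ℕ → ℕ) (n i : ℕ) (h : i ≠ n + 2) : tt G (n + 1) i = tt G n i := by
  show Function.update (tt G n) (n + 2) _ i = _
  rw [Function.update_of_ne h]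

theorem tt_add (G : (ℕ → ℕ) → ℕ → ℕ) (n i k : ℕ) (h : i ≤ n + 1) : tt G (n + k) i = tt G n i := by
  induction k with
  | zero => rfl
  | succ k ih => rw [← add_assoc, tt_succ G (n + k) i (by omega), ih]

/-- the limit -/
def ss (G : (ℕ → ℕ) → ℕ → ℕ) (i : ℕ) : ℕ := tt G i i

theorem tt_eq (G : (ℕ → ℕ) → ℕ → ℕ) (n i : ℕ) (h : i ≤ n + 1) : tt G n i = ss G i := by
  unfold ss
  rcases Nat.lt_or_ge n i with h1 | h1
  · have : i = n + 1 := by omega
    subst this
    rw [tt_succ G n (n + 1) (by omega)]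
  · obtain ⟨k, rfl⟩ := Nat.exists_eq_add_of_le h1
    exact tt_add G i i k (by omega)

theorem exists_seq (G : (ℕ → ℕ) → ℕ → ℕ)
    (hG : ∀ n s s', (∀ i ≤ n + 1, s i = s' i) → G s n = G s' n) :
    ∃ s : ℕ → ℕ, s 0 = 0 ∧ s 1 = 100 ∧
      ∀ n, s (n + 2) = max (2 * s (n + 1) + 100) (G s n) := by
  refine ⟨ss G, rfl, ?_, ?_⟩
  · rw [← tt_eq G 0 1 (by omega)]
    rfl
  · intro n
    rw [← tt_eq G (n + 1) (n + 2) (by omega)]
    have h1 : tt G (n + 1) (n + 2) = max (2 * tt G n (n + 1) + 100) (G (tt G n) n) := by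
      show Function.update (tt G n) (n + 2) _ (n + 2) = _
      rw [Function.update_self]
    rw [h1, tt_eq G n (n + 1) (by omega), hG n (tt G n) (ss G) fun i hi => tt_eq G n i hi]

end REC

theorem t_REC : S_REC := by
  intro G hG
  obtain ⟨s, h0, h1, h2⟩ := REC.exists_seq G (fun n s s' h => hG s s' n h)
  refine ⟨s, ⟨h0, ?_⟩, ?_⟩
  · intro n
    rcases n with _ | n
    · rw [h0, zero_add, h1]
    · rw [h2 n]
      exact le_max_left _ _
  · intro n
    rw [h2 n]
    exact le_max_right _ _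

end H701U
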