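import Pool.Agent.H701U.Stubs

/-!
Task ROW of project UC: row sums.  In row `i` (block `b`, so `i < s (b+1)`) every entry is at most
`c_b / (i - j)`, so the row sum is at most `c_b * H_i ≤ c_b * (1 + log i) ≤ 1`.
-/

namespace H701U

namespace ROW

open Finset

lemma c_pos (s : ℕ → ℕ) (n : ℕ) : 0 < c s n := by
  unfold c
  have h : 0 ≤ Real.log (s (n + 1)) := Real.log_natCast_nonneg _
  positivity

lemma a_le (s : ℕ → ℕ) (i j : ℕ) (hj : j < i) : a s i j ≤ c s (blk s i) / ((i : ℝ) - j) := by
  unfold a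
  have h1 : (0 : ℝ) < (i : ℝ) - j := by
    have : (j : ℝ) < i := by exact_mod_cast hj
    linarith
  split_ifs with h
  · exact le_rfl
  · exact div_nonneg (c_pos s _).le h1.le

lemma sum_inv (i : ℕ) : ∑ j ∈ range i, (1 : ℝ) / ((i : ℝ) - j) ≤ 1 + Real.log i := by
  have h1 : ∑ j ∈ range i, (1 : ℝ) / ((i : ℝ) - j) = ∑ j ∈ range i, (((j + 1 : ℕ) : ℝ))⁻¹ := by
    rw [← Finset.sum_range_reflect]
    refine Finset.sum_congr rfl fun j hj => ?_
    have hj' : j < i := Finset.mem_range.mp hj
    have h2 : ((i - 1 - j : ℕ) : ℝ) = (i : ℝ) - 1 - j := by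
      have h3 : (i - 1 - j) + (1 + j) = i := by omega
      have h4 : ((i - 1 - j : ℕ) : ℝ) + (1 + j) = i := by exact_mod_cast h3
      linarith
    rw [h2, one_div]
    congr 1
    push_cast
    ring
  have h5 : ((harmonic i : ℚ) : ℝ) = ∑ j ∈ range i, (((j + 1 : ℕ) : ℝ))⁻¹ := by
    unfold harmonic
    push_cast
    rfl
  rw [h1, ← h5]
  exact harmonic_le_one_add_log i

end ROW

open Finset ROW in
theorem t_ROW (hBLK : S_BLK) : S_ROW := by
  intro s hs i
  obtain ⟨h1, h2⟩ := (hBLK s hs i (blk s i)).mp rfl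
  have hc := c_pos s (blk s i)
  have h3 : ∑ j ∈ range i, a s i j ≤ c s (blk s i) * (1 + Real.log i) := by
    calc ∑ j ∈ range i, a s i j
        ≤ ∑ j ∈ range i, c s (blk s i) * ((1 : ℝ) / ((i : ℝ) - j)) := by
          refine Finset.sum_le_sum fun j hj => ?_
          have := a_le s i j (Finset.mem_range.mp hj)
          rw [mul_one_div]
          exact this
      _ = c s (blk s i) * ∑ j ∈ range i, (1 : ℝ) / ((i : ℝ) - j) := by
          rw [Finset.mul_sum]
      _ ≤ c s (blk s i) * (1 + Real.log i) :=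
          mul_le_mul_of_nonneg_left (sum_inv i) hc.le
  have h4 : Real.log i ≤ Real.log (s (blk s i + 1)) := by
    rcases Nat.eq_zero_or_pos i with h0 | h0
    · subst h0
      simp only [Nat.cast_zero, Real.log_zero]
      exact Real.log_natCast_nonneg _
    · apply Real.log_le_log
      · exact_mod_cast h0
      · exact_mod_cast h2.le
  have h5 : c s (blk s i) * (1 + Real.log (s (blk s i + 1))) = 1 := by
    unfold c
    have h : 0 ≤ Real.log (s (blk s i + 1)) := Real.log_natCast_nonneg _
    field_simp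
  calc ∑ j ∈ range i, a s i j ≤ c s (blk s i) * (1 + Real.log i) := h3
    _ ≤ c s (blk s i) * (1 + Real.log (s (blk s i + 1))) :=
        mul_le_mul_of_nonneg_left (by linarith) hc.le
    _ = 1 := h5

end H701U
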