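import Pool.Agent.H701U.Stubs

/-!
SA: functional calculus of a selfadjoint contraction: if `|p| ≤ 2` on `[-1, 1]` then `‖p(A)‖ ≤ 2`.
-/

namespace H701U

open Polynomial

theorem t_SA : S_SA := by
  intro A p hA hn hp
  have hN : IsStarNormal A := hA.isStarNormal
  rw [← cfc_polynomial (R := ℂ) p A]
  refine norm_cfc_le zero_le_two fun z hz => ?_
  have h1 := hA.mem_spectrum_eq_re hz
  have h2 : ‖z‖ ≤ 1 := (spectrum.norm_le_norm_mul_of_mem hz).trans (by
    calc ‖A‖ * ‖(1 : E →L[ℂ] E)‖ ≤ 1 * 1 := by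
          refine mul_le_mul hn ContinuousLinearMap.norm_id_le (norm_nonneg _) zero_le_one
      _ = 1 := one_mul 1)
  rw [h1]
  exact hp z.re ((Complex.abs_re_le_norm z).trans h2)

end H701U
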