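import Pool.Agent.H701U.Stubs

namespace H701U
namespace SCH

open Finset
open scoped ENNReal

lemma core (m : ℕ → ℕ → ℝ) (hm : ∀ i j, 0 ≤ m i j) (hr : ∀ i, ∑ j ∈ range i, m i j ≤ 1)
    (hc : ∀ j n, ∑ i ∈ Ico (j + 1) n, m i j ≤ 1) (x : ℕ → ℂ) (n : ℕ) :
    ∑ i ∈ range n, ‖∑ j ∈ range i, (m i j : ℂ) * x j‖ ^ 2 ≤ ∑ j ∈ range n, ‖x j‖ ^ 2 := by
  have h1 : ∀ i, ‖∑ j ∈ range i, (m i j : ℂ) * x j‖ ^ 2 ≤ ∑ j ∈ range i, m i j * ‖x j‖ ^ 2 := by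
    intro i
    have a1 : ‖∑ j ∈ range i, (m i j : ℂ) * x j‖ ≤ ∑ j ∈ range i, m i j * ‖x j‖ := by
      refine (norm_sum_le _ _).trans (sum_le_sum fun j _ => ?_)
      rw [norm_mul, Complex.norm_real, Real.norm_of_nonneg (hm i j)]
    have a2 : (∑ j ∈ range i, m i j * ‖x j‖) ^ 2 ≤
        (∑ j ∈ range i, m i j) * ∑ j ∈ range i, m i j * ‖x j‖ ^ 2 := by
      apply sum_sq_le_sum_mul_sum_of_sq_le_mul
      · intro j _; exact hm i j
      · intro j _; exact mul_nonneg (hm i j) (sq_nonneg _)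
      · intro j _; exact le_of_eq (by ring)
    have a3 : 0 ≤ ∑ j ∈ range i, m i j * ‖x j‖ ^ 2 :=
      sum_nonneg fun j _ => mul_nonneg (hm i j) (sq_nonneg _)
    calc ‖∑ j ∈ range i, (m i j : ℂ) * x j‖ ^ 2 ≤ (∑ j ∈ range i, m i j * ‖x j‖) ^ 2 :=
          pow_le_pow_left₀ (norm_nonneg _) a1 2
      _ ≤ _ := a2
      _ ≤ 1 * ∑ j ∈ range i, m i j * ‖x j‖ ^ 2 := mul_le_mul_of_nonneg_right (hr i) a3
      _ = _ := one_mul _
  calc ∑ i ∈ range n, ‖∑ j ∈ range i, (m i j : ℂ) * x j‖ ^ 2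
      ≤ ∑ i ∈ range n, ∑ j ∈ range i, m i j * ‖x j‖ ^ 2 := sum_le_sum fun i _ => h1 i
    _ = ∑ j ∈ range n, ∑ i ∈ Ico (j + 1) n, m i j * ‖x j‖ ^ 2 := by
        apply sum_comm'
        intro i j
        simp only [mem_range, mem_Ico]
        omega
    _ = ∑ j ∈ range n, (∑ i ∈ Ico (j + 1) n, m i j) * ‖x j‖ ^ 2 := by
        apply sum_congr rfl
        intro j _
        rw [sum_mul]
    _ ≤ ∑ j ∈ range n, 1 * ‖x j‖ ^ 2 :=
        sum_le_sum fun j _ => mul_le_mul_of_nonneg_right (hc j n) (sq_nonneg _)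
    _ = _ := by simp

lemma core_fin (m : ℕ → ℕ → ℝ) (hm : ∀ i j, 0 ≤ m i j) (hr : ∀ i, ∑ j ∈ range i, m i j ≤ 1)
    (hc : ∀ j n, ∑ i ∈ Ico (j + 1) n, m i j ≤ 1) (x : lp (fun _ : ℕ => ℂ) 2) (s : Finset ℕ) :
    ∑ i ∈ s, ‖∑ j ∈ range i, (m i j : ℂ) * x j‖ ^ (2 : ℝ≥0∞).toReal ≤
      ‖x‖ ^ (2 : ℝ≥0∞).toReal := by
  have h2 : (2 : ℝ≥0∞).toReal = (2 : ℕ) := by simp
  have hp : 0 < (2 : ℝ≥0∞).toReal := by simp
  obtain ⟨n, hn⟩ : ∃ n, s ⊆ range n := s.exists_nat_subset_range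
  have h1 := lp.sum_rpow_le_norm_rpow hp x (range n)
  refine le_trans ?_ h1
  simp only [h2, Real.rpow_natCast]
  refine le_trans (sum_le_sum_of_subset_of_nonneg hn fun i _ _ => sq_nonneg _) ?_
  exact core m hm hr hc x n

theorem core_op (m : ℕ → ℕ → ℝ) (hm : ∀ i j, 0 ≤ m i j) (hr : ∀ i, ∑ j ∈ range i, m i j ≤ 1)
    (hc : ∀ j n, ∑ i ∈ Ico (j + 1) n, m i j ≤ 1) :
    ∃ T : lp (fun _ : ℕ => ℂ) 2 →L[ℂ] lp (fun _ : ℕ => ℂ) 2, ‖T‖ ≤ 1 ∧
      ∀ (x : lp (fun _ : ℕ => ℂ) 2) (i : ℕ), T x i = ∑ j ∈ range i, (m i j : ℂ) * x j := by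
  have hp : 0 < (2 : ℝ≥0∞).toReal := by simp
  have hmem : ∀ x : lp (fun _ : ℕ => ℂ) 2,
      Memℓp (fun i => ∑ j ∈ range i, (m i j : ℂ) * x j) 2 := fun x =>
    memℓp_gen' (core_fin m hm hr hc x)
  let L : lp (fun _ : ℕ => ℂ) 2 →ₗ[ℂ] lp (fun _ : ℕ => ℂ) 2 :=
    { toFun := fun x => ⟨fun i => ∑ j ∈ range i, (m i j : ℂ) * x j, hmem x⟩
      map_add' := by
        intro x y
        ext i
        show ∑ j ∈ range i, (m i j : ℂ) * (x + y) j =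
          ∑ j ∈ range i, (m i j : ℂ) * x j + ∑ j ∈ range i, (m i j : ℂ) * y j
        rw [← sum_add_distrib]
        apply sum_congr rfl
        intro j _
        rw [lp.coeFn_add, Pi.add_apply]
        ring
      map_smul' := by
        intro c x
        ext i
        show ∑ j ∈ range i, (m i j : ℂ) * (c • x) j = c • ∑ j ∈ range i, (m i j : ℂ) * x j
        rw [smul_eq_mul, mul_sum]
        apply sum_congr rfl
        intro j _
        rw [lp.coeFn_smul, Pi.smul_apply, smul_eq_mul]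
        ring }
  have hL : ∀ x, ‖L x‖ ≤ 1 * ‖x‖ := by
    intro x
    rw [one_mul]
    apply lp.norm_le_of_forall_sum_le hp (norm_nonneg _)
    intro s
    exact core_fin m hm hr hc x s
  exact ⟨L.mkContinuous 1 hL, L.mkContinuous_norm_le zero_le_one hL, fun x i => rfl⟩

end SCH

theorem t_SCH : S_SCH := by
  intro m hm hr hc
  refine SCH.core_op m hm hr fun j n => ?_
  have h : (Finset.range n).filter (fun i => j < i) = Finset.Ico (j + 1) n := by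
    ext i
    simp only [Finset.mem_filter, Finset.mem_range, Finset.mem_Ico]
    omega
  rw [← h]
  exact hc j n

end H701U
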