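import Pool.Agent.H701U.Stubs

/-!
Project UC, task SEQ: a sequence for which every stage works
-/

namespace H701U

open scoped ENNReal InnerProductSpace
open Finset Polynomial

namespace SEQ

open Classical in
/-- the number `δ` of the stage -/
noncomputable def dl (hSTG : S_STG) (D : ℕ) (B : E →L[ℂ] E) (R : ℝ) : ℝ :=
  if h : 1 ≤ D ∧ NilD D B ∧ 0 < R then (hSTG D B h.1 h.2.1 R h.2.2).choose else 1

theorem dl_pos (hSTG : S_STG) (D : ℕ) (B : E →L[ℂ] E) (R : ℝ) : 0 < dl hSTG D B R := by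
  unfold dl
  split_ifs with h
  · exact (hSTG D B h.1 h.2.1 R h.2.2).choose_spec.1
  · exact one_pos

theorem dl_spec (hSTG : S_STG) (D : ℕ) (B : E →L[ℂ] E) (R : ℝ) (h1 : 1 ≤ D) (h2 : NilD D B)
    (h3 : 0 < R) : ∀ T : E →L[ℂ] E, ‖T‖ ≤ 1 → P D * T * P D = B →
    (∀ x ∈ N D, T x ∈ N D) →
    ‖(1 - P D) * (T - ContinuousLinearMap.adjoint T)‖ ≤ dl hSTG D B R →
    ∀ k < D, ∀ f : E, f ∈ N k → (f : ℕ → ℂ) k = 1 → ‖f‖ ≤ R →
      ∃ p : ℂ[X], ‖aeval T p f - e k‖ ≤ 1 / R + 2 * ‖f - P D f‖ := by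
  have h : 1 ≤ D ∧ NilD D B ∧ 0 < R := ⟨h1, h2, h3⟩
  have e1 : dl hSTG D B R = (hSTG D B h.1 h.2.1 R h.2.2).choose := dif_pos h
  rw [e1]
  exact (hSTG D B h.1 h.2.1 R h.2.2).choose_spec.2

/-- all numbers from `g` on are large enough for the stage -/
def Pr (hSTG : S_STG) (s : ℕ → ℕ) (n g : ℕ) : Prop :=
  ∀ (s' : ℕ → ℕ) (T : E →L[ℂ] E), Adm s' → IsT s' T → (∀ i, i ≤ n + 1 → s' i = s i) →
    ∀ g' : ℕ, g ≤ g' → 6 * (1 / (1 + Real.log g')) ≤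
      dl hSTG (s (n + 1)) (P (s (n + 1)) * T * P (s (n + 1))) (n + 1)

theorem ex_log (δ : ℝ) (hδ : 0 < δ) : ∃ g : ℕ, ∀ g' : ℕ, g ≤ g' →
    6 * (1 / (1 + Real.log g')) ≤ δ := by
  refine ⟨⌈Real.exp (6 / δ)⌉₊, fun g' hg' => ?_⟩
  have h1 : Real.exp (6 / δ) ≤ (g' : ℝ) := (Nat.le_ceil _).trans (by exact_mod_cast hg')
  have h2 : 6 / δ ≤ Real.log g' := by
    rw [Real.le_log_iff_exp_le (lt_of_lt_of_le (Real.exp_pos _) h1)]
    exact h1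
  have h3 : 0 < 6 / δ := by positivity
  have h4 : 0 < 1 + Real.log g' := by linarith
  rw [mul_one_div, div_le_iff₀ h4]
  have h5 : δ * (6 / δ) = 6 := by field_simp
  nlinarith

theorem ex_pr (hSTG : S_STG) (hPRE : S_PRE) (s : ℕ → ℕ) (n : ℕ) : ∃ g, Pr hSTG s n g := by
  by_cases h : ∃ (s' : ℕ → ℕ) (T : E →L[ℂ] E), Adm s' ∧ IsT s' T ∧ ∀ i, i ≤ n + 1 → s' i = s i
  · obtain ⟨s0, T0, h1, h2, h3⟩ := h
    obtain ⟨g, hg⟩ := ex_log _
      (dl_pos hSTG (s (n + 1)) (P (s (n + 1)) * T0 * P (s (n + 1))) (n + 1))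
    refine ⟨g, ?_⟩
    intro s' T h4 h5 h6 g' hg'
    have h7 := hPRE s' s0 T T0 h4 h1 h5 h2 n (fun i hi => (h6 i hi).trans (h3 i hi).symm)
    rw [h6 (n + 1) le_rfl] at h7
    rw [h7]
    exact hg g' hg'
  · refine ⟨0, ?_⟩
    intro s' T h4 h5 h6
    exact absurd ⟨s', T, h4, h5, h6⟩ h

theorem pr_congr (hSTG : S_STG) (s s' : ℕ → ℕ) (n g : ℕ) (h : ∀ i, i ≤ n + 1 → s i = s' i) :
    Pr hSTG s n g → Pr hSTG s' n g := by
  intro hp s1 T h1 h2 h3 g' hg'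
  have h4 := hp s1 T h1 h2 (fun i hi => (h3 i hi).trans (h i hi).symm) g' hg'
  rw [h (n + 1) le_rfl] at h4
  exact h4

end SEQ

open SEQ in
theorem t_SEQ (hSCH : S_SCH) (hROW : S_ROW) (hCOL : S_COL) (hPOS : S_POS) (_hCC : S_CC)
    (_hPRJ : S_PRJ) (hADJ : S_ADJ) (hLOW : S_LOW) (hNIL : S_NIL) (hPRE : S_PRE) (hSTG : S_STG)
    (hREC : S_REC) : S_SEQ := by
  obtain ⟨s, hs, hG⟩ := hREC (fun s n => sInf {g | Pr hSTG s n g}) (by
    intro s s' n h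
    have h1 : {g | Pr hSTG s n g} = {g | Pr hSTG s' n g} := by
      ext g
      exact ⟨pr_congr hSTG s s' n g h, pr_congr hSTG s' s n g (fun i hi => (h i hi).symm)⟩
    simp only [h1])
  obtain ⟨T, hT1, hT⟩ := hSCH (a s) (hPOS s hs).1 (hROW s hs) (hCOL s hs)
  have hT' : IsT s T := hT
  refine ⟨s, T, hs, hT', hT1, ?_⟩
  intro n k hk f hf hfk hfn
  have hD : 1 ≤ s (n + 1) := by
    have := hs.grow n
    omega
  have hpr : Pr hSTG s n (sInf {g | Pr hSTG s n g}) := Nat.sInf_mem (ex_pr hSTG hPRE s n)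
  have h1 := hpr s T hs hT' (fun i _ => rfl) (s (n + 2)) (hG n)
  have h2 := hADJ s T hs hT' n
  have h3 : ‖(1 - P (s (n + 1))) * (T - ContinuousLinearMap.adjoint T)‖ ≤
      dl hSTG (s (n + 1)) (P (s (n + 1)) * T * P (s (n + 1))) ((n : ℝ) + 1) := by
    refine h2.trans ?_
    unfold c
    exact h1
  have hlow : ∀ x ∈ N (s (n + 1)), T x ∈ N (s (n + 1)) := by
    intro x hx i hi
    exact (hLOW s T hs hT').1 (s (n + 1)) x hx i (by omega)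
  exact dl_spec hSTG (s (n + 1)) (P (s (n + 1)) * T * P (s (n + 1))) ((n : ℝ) + 1) hD
    (hNIL s T hs hT' _) (by positivity) T hT1 rfl hlow h3 k hk f hf hfk hfn

end H701U
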