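import Pool.Agent.H701U.Stubs

namespace H701U
namespace SKEW

open scoped ENNReal InnerProductSpace
open Finset

lemma sum_sq_le (x : E) (S : Finset ℕ) : ∑ i ∈ S, ‖(x : ℕ → ℂ) i‖ ^ 2 ≤ ‖x‖ ^ 2 := by
  have h := lp.sum_rpow_le_norm_rpow (p := 2) (by norm_num) x S
  simpa using h

noncomputable def wA (s : ℕ → ℕ) (i j : ℕ) : ℝ :=
  if blk s i = blk s j ∧ i ≠ j then c s (blk s i) / ((i : ℝ) - j) else 0

noncomputable def wB (s : ℕ → ℕ) (i j : ℕ) : ℝ :=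
  if blk s i ≠ blk s j ∧ i = j + 1 then c s (blk s i) else
  if blk s i ≠ blk s j ∧ j = i + 1 then - c s (blk s j) else 0

lemma key (s : ℕ → ℕ) (i j : ℕ) : a s i j - a s j i = wA s i j + wB s i j := by
  rcases lt_trichotomy i j with h | h | h
  · have h1 : ¬ j < i := by omega
    have h2 : i ≠ j := by omega
    have h3 : ¬ i = j + 1 := by omega
    unfold a wA wB
    by_cases hb : blk s i = blk s j
    · have hne : (j : ℝ) - i ≠ 0 := by
        have : (i : ℝ) < j := by exact_mod_cast h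
        exact (sub_pos.mpr this).ne'
      have hne' : (i : ℝ) - j ≠ 0 := by
        have : (i : ℝ) < j := by exact_mod_cast h
        exact (sub_neg.mpr this).ne
      simp only [h1, h, h2, hb, false_and, if_false, true_and, true_or, if_true, ne_eq,
        not_true_eq_false, not_false_eq_true]
      field_simp
      ring
    · by_cases hj : j = i + 1
      · subst hj
        simp only [h1, h, h2, h3, hb, false_and, if_false, true_and, or_true, if_true, ne_eq,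
          not_true_eq_false, not_false_eq_true, and_false]
        push_cast
        have : ((i : ℝ) + 1 - i) = 1 := by ring
        rw [this]; ring
      · simp [h1, h, h2, h3, hb, hj]
  · subst h
    simp [a, wA, wB]
  · have h1 : ¬ i < j := by omega
    have h2 : i ≠ j := by omega
    have h3 : ¬ j = i + 1 := by omega
    unfold a wA wB
    by_cases hb : blk s i = blk s j
    · simp [h1, h, h2, hb]
    · have hb' : ¬ blk s j = blk s i := fun h => hb h.symm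
      by_cases hj : i = j + 1
      · subst hj
        simp only [h1, h, h2, h3, hb, hb', false_and, if_false, true_and, or_true, if_true, ne_eq,
          not_true_eq_false, not_false_eq_true, and_false]
        push_cast
        have : ((j : ℝ) + 1 - j) = 1 := by ring
        rw [this]; ring
      · simp [h1, h, h2, h3, hb, hb', hj]

lemma blk_ge (hBLK : S_BLK) (s : ℕ → ℕ) (hs : Adm s) (n i : ℕ) (hi : s n ≤ i) : n ≤ blk s i := by
  have hmono : StrictMono s := strictMono_nat_of_lt_succ (fun n => by have := hs.grow n; omega)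
  have h := ((hBLK s hs i (blk s i)).1 rfl).2
  by_contra hc
  push_neg at hc
  have : s (blk s i + 1) ≤ s n := hmono.monotone (by omega)
  omega

lemma blk_lt (hBLK : S_BLK) (s : ℕ → ℕ) (hs : Adm s) (n i : ℕ) (hi : blk s i < n) : i < s n := by
  by_contra hc
  push_neg at hc
  have := blk_ge hBLK s hs n i hc
  omega

lemma partA (hBLK : S_BLK) (hHIL : S_HIL) (hCC : S_CC) (s : ℕ → ℕ) (hs : Adm s) (n : ℕ)
    (x y : E) (hy : y ∈ N (s (n + 1))) (S : ℕ) :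
    ‖∑ i ∈ range S, ∑ j ∈ range S, (wA s i j : ℂ) * ((starRingEnd ℂ) ((y : ℕ → ℂ) i) * (x : ℕ → ℂ) j)‖
      ≤ Real.pi * c s (n + 1) * ‖x‖ * ‖y‖ := by
  classical
  have hc := hCC s hs
  have hy0 : ∀ i, i < s (n + 1) → (y : ℕ → ℂ) i = 0 := hy
  set B : ℕ → Finset ℕ := fun b => (range S).filter (fun i => blk s i = b) with hB
  set t : Finset ℕ := (range S).image (blk s) with ht
  have h1 : ∑ i ∈ range S, ∑ j ∈ range S, (wA s i j : ℂ) * ((starRingEnd ℂ) ((y : ℕ → ℂ) i) * (x : ℕ → ℂ) j)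
      = ∑ b ∈ t, (c s b : ℂ) * ∑ i ∈ B b, ∑ j ∈ (B b).erase i,
          (x : ℕ → ℂ) j * (starRingEnd ℂ) ((y : ℕ → ℂ) i) / ((i : ℂ) - j) := by
    rw [← Finset.sum_fiberwise_of_maps_to (s := range S) (t := t) (g := blk s)
      (fun i hi => Finset.mem_image_of_mem _ hi)]
    refine Finset.sum_congr rfl fun b hb => ?_
    rw [Finset.mul_sum]
    refine Finset.sum_congr rfl fun i hi => ?_
    have hib : blk s i = b := (Finset.mem_filter.1 hi).2
    have h2 : (B b).erase i = (range S).filter (fun j => blk s i = blk s j ∧ i ≠ j) := by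
      ext j
      simp only [hB, Finset.mem_erase, Finset.mem_filter]
      constructor
      · rintro ⟨h, h', h''⟩
        exact ⟨h', by rw [hib, h''], fun h3 => h h3.symm⟩
      · rintro ⟨h, h', h''⟩
        exact ⟨fun h3 => h'' h3.symm, h, by rw [← h', hib]⟩
    rw [h2, Finset.sum_filter, Finset.mul_sum]
    refine Finset.sum_congr rfl fun j hj => ?_
    unfold wA
    by_cases h3 : blk s i = blk s j ∧ i ≠ j
    · rw [if_pos h3, if_pos h3, hib]
      push_cast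
      ring
    · rw [if_neg h3, if_neg h3]
      simp
  rw [h1]
  have h2 : ∀ b ∈ t, ‖(c s b : ℂ) * ∑ i ∈ B b, ∑ j ∈ (B b).erase i,
          (x : ℕ → ℂ) j * (starRingEnd ℂ) ((y : ℕ → ℂ) i) / ((i : ℂ) - j)‖ ≤
      c s (n + 1) * Real.pi * (Real.sqrt (∑ i ∈ B b, ‖(x : ℕ → ℂ) i‖ ^ 2) *
        Real.sqrt (∑ i ∈ B b, ‖(y : ℕ → ℂ) i‖ ^ 2)) := by
    intro b hb
    rw [norm_mul, Complex.norm_real, Real.norm_of_nonneg (hc.1 b).le]
    by_cases hbn : n + 1 ≤ b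
    · have h3 := hHIL (B b) x y
      have h4 := hc.2.1 (n + 1) b hbn
      calc _ ≤ c s (n + 1) * (Real.pi * Real.sqrt (∑ i ∈ B b, ‖(x : ℕ → ℂ) i‖ ^ 2) *
        Real.sqrt (∑ i ∈ B b, ‖(y : ℕ → ℂ) i‖ ^ 2)) :=
            mul_le_mul h4 h3 (norm_nonneg _) (hc.1 _).le
        _ = _ := by ring
    · have h3 : ∑ i ∈ B b, ∑ j ∈ (B b).erase i,
          (x : ℕ → ℂ) j * (starRingEnd ℂ) ((y : ℕ → ℂ) i) / ((i : ℂ) - j) = 0 := by
        refine Finset.sum_eq_zero fun i hi => Finset.sum_eq_zero fun j hj => ?_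
        have hib : blk s i = b := (Finset.mem_filter.1 hi).2
        have hi0 : (y : ℕ → ℂ) i = 0 := hy0 i (blk_lt hBLK s hs (n + 1) i (by omega))
        rw [hi0]; simp
      rw [h3, norm_zero, mul_zero]
      have := (hc.1 (n + 1)).le
      have := Real.pi_pos.le
      positivity
  have hX : ∑ b ∈ t, ∑ i ∈ B b, ‖(x : ℕ → ℂ) i‖ ^ 2 ≤ ‖x‖ ^ 2 := by
    rw [Finset.sum_fiberwise_of_maps_to (s := range S) (t := t) (g := blk s)
      (fun i hi => Finset.mem_image_of_mem _ hi)]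
    exact sum_sq_le x _
  have hY : ∑ b ∈ t, ∑ i ∈ B b, ‖(y : ℕ → ℂ) i‖ ^ 2 ≤ ‖y‖ ^ 2 := by
    rw [Finset.sum_fiberwise_of_maps_to (s := range S) (t := t) (g := blk s)
      (fun i hi => Finset.mem_image_of_mem _ hi)]
    exact sum_sq_le y _
  calc _ ≤ ∑ b ∈ t, ‖(c s b : ℂ) * ∑ i ∈ B b, ∑ j ∈ (B b).erase i,
          (x : ℕ → ℂ) j * (starRingEnd ℂ) ((y : ℕ → ℂ) i) / ((i : ℂ) - j)‖ := norm_sum_le _ _
    _ ≤ ∑ b ∈ t, c s (n + 1) * Real.pi * (Real.sqrt (∑ i ∈ B b, ‖(x : ℕ → ℂ) i‖ ^ 2) *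
        Real.sqrt (∑ i ∈ B b, ‖(y : ℕ → ℂ) i‖ ^ 2)) := Finset.sum_le_sum h2
    _ = c s (n + 1) * Real.pi * ∑ b ∈ t, (Real.sqrt (∑ i ∈ B b, ‖(x : ℕ → ℂ) i‖ ^ 2) *
        Real.sqrt (∑ i ∈ B b, ‖(y : ℕ → ℂ) i‖ ^ 2)) := by rw [Finset.mul_sum]
    _ ≤ c s (n + 1) * Real.pi * (Real.sqrt (∑ b ∈ t, ∑ i ∈ B b, ‖(x : ℕ → ℂ) i‖ ^ 2) *
        Real.sqrt (∑ b ∈ t, ∑ i ∈ B b, ‖(y : ℕ → ℂ) i‖ ^ 2)) := by
        refine mul_le_mul_of_nonneg_left ?_ (mul_nonneg (hc.1 _).le Real.pi_pos.le)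
        exact Real.sum_sqrt_mul_sqrt_le t (fun b => Finset.sum_nonneg fun i _ => by positivity)
          (fun b => Finset.sum_nonneg fun i _ => by positivity)
    _ ≤ c s (n + 1) * Real.pi * (‖x‖ * ‖y‖) := by
        refine mul_le_mul_of_nonneg_left ?_ (mul_nonneg (hc.1 _).le Real.pi_pos.le)
        refine mul_le_mul ?_ ?_ (Real.sqrt_nonneg _) (norm_nonneg _)
        · exact Real.sqrt_le_iff.2 ⟨norm_nonneg _, hX⟩
        · exact Real.sqrt_le_iff.2 ⟨norm_nonneg _, hY⟩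
    _ = _ := by ring

lemma diag (f g : ℕ → ℝ) (hf : ∀ i, 0 ≤ f i) (hg : ∀ i, 0 ≤ g i) (F G : ℝ) (hF : 0 ≤ F)
    (hG : 0 ≤ G) (hf2 : ∀ S : Finset ℕ, ∑ i ∈ S, f i ^ 2 ≤ F ^ 2)
    (hg2 : ∀ S : Finset ℕ, ∑ i ∈ S, g i ^ 2 ≤ G ^ 2) (S : ℕ) :
    ∑ j ∈ range S, f (j + 1) * g j ≤ F * G := by
  have h1 : ∑ j ∈ range S, f (j + 1) * g j =
      ∑ j ∈ range S, Real.sqrt (f (j + 1) ^ 2) * Real.sqrt (g j ^ 2) := by
    refine Finset.sum_congr rfl fun j _ => ?_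
    rw [Real.sqrt_sq (hf _), Real.sqrt_sq (hg _)]
  rw [h1]
  refine (Real.sum_sqrt_mul_sqrt_le _ (fun j => sq_nonneg _) (fun j => sq_nonneg _)).trans ?_
  refine mul_le_mul ?_ ?_ (Real.sqrt_nonneg _) hF
  · refine Real.sqrt_le_iff.2 ⟨hF, ?_⟩
    refine le_trans ?_ (hf2 (range (S + 1)))
    rw [Finset.sum_range_succ']
    have := sq_nonneg (f 0)
    linarith
  · exact Real.sqrt_le_iff.2 ⟨hG, hg2 _⟩

lemma partB (hBLK : S_BLK) (hCC : S_CC) (s : ℕ → ℕ) (hs : Adm s) (n : ℕ)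
    (x y : E) (hy : y ∈ N (s (n + 1))) (S : ℕ) :
    ‖∑ i ∈ range S, ∑ j ∈ range S, (wB s i j : ℂ) * ((starRingEnd ℂ) ((y : ℕ → ℂ) i) * (x : ℕ → ℂ) j)‖
      ≤ 2 * c s (n + 1) * ‖x‖ * ‖y‖ := by
  classical
  have hc := hCC s hs
  have hy0 : ∀ i, i < s (n + 1) → (y : ℕ → ℂ) i = 0 := hy
  have hcn := (hc.1 (n + 1)).le
  have h1 : ∀ i j : ℕ, ‖(wB s i j : ℂ) * ((starRingEnd ℂ) ((y : ℕ → ℂ) i) * (x : ℕ → ℂ) j)‖ ≤
      c s (n + 1) * ((if i = j + 1 then ‖(y : ℕ → ℂ) i‖ * ‖(x : ℕ → ℂ) j‖ else 0) +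
        (if j = i + 1 then ‖(y : ℕ → ℂ) i‖ * ‖(x : ℕ → ℂ) j‖ else 0)) := by
    intro i j
    by_cases hi : (y : ℕ → ℂ) i = 0
    · rw [hi]; simp
    · have hin : s (n + 1) ≤ i := by
        by_contra h
        push_neg at h
        exact hi (hy0 i h)
      have hbi : n + 1 ≤ blk s i := blk_ge hBLK s hs _ _ hin
      rw [norm_mul, norm_mul, RCLike.norm_conj, Complex.norm_real]
      have hw : ‖wB s i j‖ ≤ c s (n + 1) * ((if i = j + 1 then 1 else 0) + (if j = i + 1 then 1 else 0)) := by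
        unfold wB
        by_cases h2 : i = j + 1
        · have h3 : ¬ j = i + 1 := by omega
          by_cases h4 : blk s i = blk s j
          · rw [if_neg (fun h => h.1 h4), if_neg (fun h => h.1 h4), if_pos h2, if_neg h3]
            simp [hcn]
          · rw [if_pos ⟨h4, h2⟩, if_pos h2, if_neg h3, Real.norm_of_nonneg (hc.1 _).le]
            have := hc.2.1 (n + 1) _ hbi
            linarith
        · by_cases h3 : j = i + 1
          · have hbj : n + 1 ≤ blk s j := blk_ge hBLK s hs _ _ (by omega)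
            have := hc.2.1 (n + 1) _ hbj
            rw [if_neg (fun h => h2 h.2), if_neg h2, if_pos h3]
            by_cases h4 : blk s i = blk s j
            · rw [if_neg (fun h => h.1 h4)]
              simp [hcn]
            · rw [if_pos ⟨h4, h3⟩, norm_neg, Real.norm_of_nonneg (hc.1 _).le]
              linarith
          · rw [if_neg (fun h => h2 h.2), if_neg (fun h => h3 h.2), if_neg h2, if_neg h3]
            simp
      calc _ ≤ (c s (n + 1) * ((if i = j + 1 then 1 else 0) + (if j = i + 1 then 1 else 0))) *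
            (‖(y : ℕ → ℂ) i‖ * ‖(x : ℕ → ℂ) j‖) := by
              refine mul_le_mul_of_nonneg_right hw (by positivity)
        _ = _ := by
          split_ifs <;> ring
  have h2 : ∑ i ∈ range S, ∑ j ∈ range S,
      (if i = j + 1 then ‖(y : ℕ → ℂ) i‖ * ‖(x : ℕ → ℂ) j‖ else 0) ≤ ‖y‖ * ‖x‖ := by
    rw [Finset.sum_comm]
    refine le_trans ?_ (diag (fun i => ‖(y : ℕ → ℂ) i‖) (fun i => ‖(x : ℕ → ℂ) i‖)
      (fun _ => norm_nonneg _) (fun _ => norm_nonneg _) ‖y‖ ‖x‖ (norm_nonneg _) (norm_nonneg _)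
      (sum_sq_le y) (sum_sq_le x) S)
    refine Finset.sum_le_sum fun j _ => ?_
    rw [Finset.sum_ite_eq' (range S) (j + 1) (fun i => ‖(y : ℕ → ℂ) i‖ * ‖(x : ℕ → ℂ) j‖)]
    split_ifs
    · exact le_rfl
    · positivity
  have h3 : ∑ i ∈ range S, ∑ j ∈ range S,
      (if j = i + 1 then ‖(y : ℕ → ℂ) i‖ * ‖(x : ℕ → ℂ) j‖ else 0) ≤ ‖x‖ * ‖y‖ := by
    refine le_trans ?_ (diag (fun i => ‖(x : ℕ → ℂ) i‖) (fun i => ‖(y : ℕ → ℂ) i‖)
      (fun _ => norm_nonneg _) (fun _ => norm_nonneg _) ‖x‖ ‖y‖ (norm_nonneg _) (norm_nonneg _)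
      (sum_sq_le x) (sum_sq_le y) S)
    refine Finset.sum_le_sum fun i _ => ?_
    rw [Finset.sum_ite_eq' (range S) (i + 1) (fun j => ‖(y : ℕ → ℂ) i‖ * ‖(x : ℕ → ℂ) j‖)]
    split_ifs
    · exact le_of_eq (mul_comm _ _)
    · positivity
  calc _ ≤ ∑ i ∈ range S, ∑ j ∈ range S,
        ‖(wB s i j : ℂ) * ((starRingEnd ℂ) ((y : ℕ → ℂ) i) * (x : ℕ → ℂ) j)‖ :=
        (norm_sum_le _ _).trans (Finset.sum_le_sum fun i _ => norm_sum_le _ _)
    _ ≤ ∑ i ∈ range S, ∑ j ∈ range S, c s (n + 1) *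
        ((if i = j + 1 then ‖(y : ℕ → ℂ) i‖ * ‖(x : ℕ → ℂ) j‖ else 0) +
        (if j = i + 1 then ‖(y : ℕ → ℂ) i‖ * ‖(x : ℕ → ℂ) j‖ else 0)) :=
        Finset.sum_le_sum fun i _ => Finset.sum_le_sum fun j _ => h1 i j
    _ = c s (n + 1) * (∑ i ∈ range S, ∑ j ∈ range S,
          (if i = j + 1 then ‖(y : ℕ → ℂ) i‖ * ‖(x : ℕ → ℂ) j‖ else 0) +
        ∑ i ∈ range S, ∑ j ∈ range S,
          (if j = i + 1 then ‖(y : ℕ → ℂ) i‖ * ‖(x : ℕ → ℂ) j‖ else 0)) := by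
        simp only [Finset.mul_sum, Finset.sum_add_distrib, mul_add]
    _ ≤ c s (n + 1) * (‖y‖ * ‖x‖ + ‖x‖ * ‖y‖) :=
        mul_le_mul_of_nonneg_left (add_le_add h2 h3) hcn
    _ = _ := by ring

lemma partial_eq (hPOS : S_POS) (s : ℕ → ℕ) (T : E →L[ℂ] E) (hs : Adm s) (hT : IsT s T)
    (x y : E) (S : ℕ) :
    ∑ i ∈ range S, ⟪(y : ℕ → ℂ) i, (T x : ℕ → ℂ) i⟫_ℂ - ∑ i ∈ range S, ⟪(T y : ℕ → ℂ) i, (x : ℕ → ℂ) i⟫_ℂ
      = ∑ i ∈ range S, ∑ j ∈ range S,
        ((a s i j - a s j i : ℝ) : ℂ) * ((starRingEnd ℂ) ((y : ℕ → ℂ) i) * (x : ℕ → ℂ) j) := by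
  have hp := (hPOS s hs).2.1
  have h0 : ∀ (z : ℕ → ℂ) (i : ℕ), i ∈ range S →
      ∑ j ∈ range i, (a s i j : ℂ) * z j = ∑ j ∈ range S, (a s i j : ℂ) * z j := by
    intro z i hi
    refine Finset.sum_subset ?_ ?_
    · intro j hj
      rw [Finset.mem_range] at *
      omega
    · intro j hj hj'
      rw [Finset.mem_range] at *
      rw [hp i j (by omega)]
      simp
  have h1 : ∑ i ∈ range S, ⟪(y : ℕ → ℂ) i, (T x : ℕ → ℂ) i⟫_ℂ = ∑ i ∈ range S, ∑ j ∈ range S,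
        (a s i j : ℂ) * ((starRingEnd ℂ) ((y : ℕ → ℂ) i) * (x : ℕ → ℂ) j) := by
    refine Finset.sum_congr rfl fun i hi => ?_
    rw [hT x i, h0 _ i hi, RCLike.inner_apply, Finset.sum_mul]
    refine Finset.sum_congr rfl fun j _ => ?_
    ring
  have h2 : ∑ i ∈ range S, ⟪(T y : ℕ → ℂ) i, (x : ℕ → ℂ) i⟫_ℂ = ∑ i ∈ range S, ∑ j ∈ range S,
        (a s j i : ℂ) * ((starRingEnd ℂ) ((y : ℕ → ℂ) i) * (x : ℕ → ℂ) j) := by
    rw [Finset.sum_comm]
    refine Finset.sum_congr rfl fun i hi => ?_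
    rw [hT y i, h0 _ i hi, RCLike.inner_apply, map_sum, Finset.mul_sum]
    refine Finset.sum_congr rfl fun j _ => ?_
    rw [map_mul, Complex.conj_ofReal]
    ring
  rw [h1, h2, ← Finset.sum_sub_distrib]
  refine Finset.sum_congr rfl fun i _ => ?_
  rw [← Finset.sum_sub_distrib]
  refine Finset.sum_congr rfl fun j _ => ?_
  push_cast
  ring

end SKEW

open scoped ENNReal InnerProductSpace
open Finset SKEW

theorem t_SKEW (hBLK : S_BLK) (hHIL : S_HIL) (hPOS : S_POS) (hCC : S_CC) : S_SKEW := by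
  intro s T hs hT n x y hy
  have h1 := (lp.hasSum_inner (𝕜 := ℂ) y (T x)).tendsto_sum_nat
  have h2 := (lp.hasSum_inner (𝕜 := ℂ) (T y) x).tendsto_sum_nat
  have h3 := (h1.sub h2).norm
  refine le_of_tendsto h3 (Filter.Eventually.of_forall fun S => ?_)
  rw [partial_eq hPOS s T hs hT x y S]
  have h4 : ∑ i ∈ range S, ∑ j ∈ range S,
        ((a s i j - a s j i : ℝ) : ℂ) * ((starRingEnd ℂ) ((y : ℕ → ℂ) i) * (x : ℕ → ℂ) j) =
      ∑ i ∈ range S, ∑ j ∈ range S,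
        (wA s i j : ℂ) * ((starRingEnd ℂ) ((y : ℕ → ℂ) i) * (x : ℕ → ℂ) j) +
      ∑ i ∈ range S, ∑ j ∈ range S,
        (wB s i j : ℂ) * ((starRingEnd ℂ) ((y : ℕ → ℂ) i) * (x : ℕ → ℂ) j) := by
    rw [← Finset.sum_add_distrib]
    refine Finset.sum_congr rfl fun i _ => ?_
    rw [← Finset.sum_add_distrib]
    refine Finset.sum_congr rfl fun j _ => ?_
    rw [key s i j]
    push_cast
    ring
  rw [h4]
  refine (norm_add_le _ _).trans ?_
  have hA := partA hBLK hHIL hCC s hs n x y hy S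
  have hB := partB hBLK hCC s hs n x y hy S
  have hpi : Real.pi ≤ 4 := Real.pi_le_four
  have hc0 := ((hCC s hs).1 (n + 1)).le
  have h5 : Real.pi * (c s (n + 1) * ‖x‖ * ‖y‖) ≤ 4 * (c s (n + 1) * ‖x‖ * ‖y‖) :=
    mul_le_mul_of_nonneg_right hpi (by positivity)
  nlinarith [hA, hB, h5]

end H701U
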