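import Pool.Agent.H701U.Stubs

/-!
Project UC (MP_546dcb_an), task SOLV: triangular systems with bounds.
-/

namespace H701U

open scoped ENNReal InnerProductSpace
open Finset Polynomial

namespace SOLV

theorem e_apply (k i : ℕ) : (e k : ℕ → ℂ) i = if i = k then 1 else 0 := by
  unfold e
  split_ifs with h
  · subst h
    exact lp.single_apply_self (E := fun _ : ℕ => ℂ) 2 i (1 : ℂ)
  · exact lp.single_apply_ne (E := fun _ : ℕ => ℂ) 2 k (1 : ℂ) h

theorem mem_N (k : ℕ) (x : E) : x ∈ N k ↔ ∀ i, i < k → (x : ℕ → ℂ) i = 0 := Iff.rfl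

theorem N_anti {j k : ℕ} (h : j ≤ k) : N k ≤ N j := fun _ hx i hi => hx i (hi.trans_le h)

theorem P_sum (D : ℕ) (x : E) : P D x = ∑ i ∈ range D, (x : ℕ → ℂ) i • e i := by
  unfold P
  rw [ContinuousLinearMap.sum_apply]
  refine sum_congr rfl fun i _ => ?_
  rw [ContinuousLinearMap.smulRight_apply, innerSL_apply_apply]
  congr 1
  unfold e
  rw [lp.inner_single_left]
  simp

theorem PB {D : ℕ} {B : E →L[ℂ] E} (hP : P D * P D = P D) (h : NilD D B) : P D * B = B := by
  conv_rhs => rw [← h.comp]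
  conv_lhs => rw [← h.comp]
  rw [← mul_assoc, ← mul_assoc, hP]

theorem BP {D : ℕ} {B : E →L[ℂ] E} (hP : P D * P D = P D) (h : NilD D B) : B * P D = B := by
  conv_rhs => rw [← h.comp]
  conv_lhs => rw [← h.comp]
  rw [mul_assoc, hP]

theorem B_apply {D : ℕ} {B : E →L[ℂ] E} (hP : P D * P D = P D) (h : NilD D B) (x : E) :
    B x = ∑ i ∈ range D, (x : ℕ → ℂ) i • B (e i) := by
  have h1 : B x = B (P D x) := by
    conv_lhs => rw [← BP hP h]
    rfl
  rw [h1, P_sum, map_sum]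
  exact sum_congr rfl fun i _ => map_smul _ _ _

theorem B_mem {D : ℕ} {B : E →L[ℂ] E} (hP : P D * P D = P D) (h : NilD D B) {k : ℕ} {x : E}
    (hx : x ∈ N k) : B x ∈ N (k + 1) := by
  rw [B_apply hP h]
  refine Submodule.sum_mem _ fun i _ => ?_
  by_cases hi : i < k
  · rw [hx i hi, zero_smul]
    exact Submodule.zero_mem _
  · exact Submodule.smul_mem _ _ (N_anti (by omega) (h.low i))

theorem B_lead {D : ℕ} {B : E →L[ℂ] E} (hP : P D * P D = P D) (h : NilD D B) {k : ℕ} {x : E}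
    (hx : x ∈ N k) : (B x : ℕ → ℂ) (k + 1) = (x : ℕ → ℂ) k * (B (e k) : ℕ → ℂ) (k + 1) := by
  have h1 : x - (x : ℕ → ℂ) k • e k ∈ N (k + 1) := by
    intro i hi
    rw [lp.coeFn_sub, Pi.sub_apply, lp.coeFn_smul, Pi.smul_apply, e_apply]
    by_cases hik : i = k
    · rw [hik]
      simp
    · rw [hx i (by omega), if_neg hik]
      simp
  have h2 := B_mem hP h h1 (k + 1) (by omega)
  rw [map_sub, map_smul, lp.coeFn_sub, Pi.sub_apply, lp.coeFn_smul, Pi.smul_apply,
    smul_eq_mul, sub_eq_zero] at h2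
  exact h2

theorem pow_mem {D : ℕ} {B : E →L[ℂ] E} (hP : P D * P D = P D) (h : NilD D B) {k : ℕ} {x : E}
    (hx : x ∈ N k) (m : ℕ) : (B ^ m) x ∈ N (k + m) := by
  induction m with
  | zero => simpa using hx
  | succ m ih =>
    rw [pow_succ']
    exact B_mem hP h ih

/-- the leading coefficient -/
noncomputable def beta (B : E →L[ℂ] E) (k : ℕ) : ℕ → ℂ
  | 0 => 1
  | m + 1 => beta B k m * (B (e (k + m)) : ℕ → ℂ) (k + m + 1)

theorem pow_lead {D : ℕ} {B : E →L[ℂ] E} (hP : P D * P D = P D) (h : NilD D B) {k : ℕ} {x : E}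
    (hx : x ∈ N k) (hk : (x : ℕ → ℂ) k = 1) (m : ℕ) :
    ((B ^ m) x : ℕ → ℂ) (k + m) = beta B k m := by
  induction m with
  | zero => simpa [beta] using hk
  | succ m ih =>
    rw [pow_succ']
    have h1 := B_lead hP h (pow_mem hP h hx m)
    rw [ih] at h1
    exact h1

theorem beta_ne {D : ℕ} {B : E →L[ℂ] E} (h : NilD D B) (k : ℕ) (m : ℕ) (hm : k + m < D) :
    beta B k m ≠ 0 := by
  induction m with
  | zero => exact one_ne_zero
  | succ m ih => exact mul_ne_zero (ih (by omega)) (h.sub (k + m) (by omega))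

/-- bound for the value of a polynomial with bounded coefficients -/
theorem bound (B : E →L[ℂ] E) (l : ℕ) (K R : ℝ) (q : ℂ[X]) (hq : q.natDegree ≤ l)
    (hK : ∀ i, ‖q.coeff i‖ ≤ K) (v : E) (hv : ‖v‖ ≤ R) :
    ‖aeval B q v‖ ≤ (∑ i ∈ range (l + 1), K * ‖B ^ i‖) * R := by
  have hK0 : 0 ≤ K := (norm_nonneg _).trans (hK 0)
  have h1 : ‖aeval B q‖ ≤ ∑ i ∈ range (l + 1), K * ‖B ^ i‖ := by
    rw [Polynomial.aeval_eq_sum_range' (Nat.lt_succ_of_le hq)]
    refine (norm_sum_le _ _).trans (sum_le_sum fun i _ => ?_)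
    rw [norm_smul]
    exact mul_le_mul_of_nonneg_right (hK i) (norm_nonneg _)
  have h2 : ‖aeval B q v‖ ≤ ‖aeval B q‖ * ‖v‖ := ContinuousLinearMap.le_opNorm _ _
  refine h2.trans (mul_le_mul h1 hv (norm_nonneg _) ?_)
  exact sum_nonneg fun i _ => mul_nonneg hK0 (norm_nonneg _)

/-- the induction -/
theorem main {D : ℕ} {B : E →L[ℂ] E} (hP : P D * P D = P D) (h : NilD D B) (R : ℝ) (k : ℕ)
    (l : ℕ) : k + l < D → ∃ K : ℝ, ∀ v : E, v ∈ N k → (v : ℕ → ℂ) k = 1 → ‖v‖ ≤ R →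
      ∃ q : ℂ[X], q.natDegree ≤ l ∧ q.coeff 0 = 1 ∧ (∀ i, ‖q.coeff i‖ ≤ K) ∧
        aeval B q v - e k ∈ N (k + l + 1) := by
  induction l with
  | zero =>
    intro _
    refine ⟨1, fun v hv hk _ => ⟨1, ?_, ?_, ?_, ?_⟩⟩
    · simp
    · simp
    · intro i
      rw [Polynomial.coeff_one]
      split_ifs <;> simp
    · intro i hi
      rw [map_one, lp.coeFn_sub, Pi.sub_apply, e_apply]
      show (v : ℕ → ℂ) i - _ = 0
      by_cases hik : i = k
      · rw [hik, hk]
        simp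
      · rw [hv i (by omega), if_neg hik, sub_zero]
  | succ l ih =>
    intro hl
    obtain ⟨K, hK⟩ := ih (by omega)
    have hβ : beta B k (l + 1) ≠ 0 := beta_ne h k (l + 1) hl
    have hβ' : 0 < ‖beta B k (l + 1)‖ := norm_pos_iff.2 hβ
    set M : ℝ := ((∑ i ∈ range (l + 1), K * ‖B ^ i‖) * R + 1) / ‖beta B k (l + 1)‖ with hM
    refine ⟨K + M, fun v hv hk hR => ?_⟩
    obtain ⟨q, hq1, hq2, hq3, hq4⟩ := hK v hv hk hR
    set α : ℂ := ((aeval B q v - e k : E) : ℕ → ℂ) (k + l + 1) / beta B k (l + 1) with hα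
    have hαM : ‖α‖ ≤ M := by
      rw [hα, norm_div, hM]
      refine div_le_div_of_nonneg_right ?_ hβ'.le
      have h3 := bound B l K R q hq1 hq3 v hR
      have h4 : ‖((aeval B q v - e k : E) : ℕ → ℂ) (k + l + 1)‖ ≤ ‖aeval B q v‖ := by
        rw [lp.coeFn_sub, Pi.sub_apply, e_apply, if_neg (by omega), sub_zero]
        exact lp.norm_apply_le_norm (by norm_num) (aeval B q v) (k + l + 1)
      linarith
    have hM0 : 0 ≤ M := (norm_nonneg _).trans hαM
    have hK0 : 0 ≤ K := (norm_nonneg _).trans (hq3 0)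
    refine ⟨q - C α * X ^ (l + 1), ?_, ?_, ?_, ?_⟩
    · refine (natDegree_sub_le _ _).trans (max_le (hq1.trans (Nat.le_succ l)) ?_)
      exact natDegree_C_mul_X_pow_le _ _
    · rw [coeff_sub, coeff_C_mul_X_pow, if_neg (by omega), sub_zero, hq2]
    · intro i
      rw [coeff_sub, coeff_C_mul_X_pow]
      refine (norm_sub_le _ _).trans (add_le_add (hq3 i) ?_)
      split_ifs
      · exact hαM
      · rw [norm_zero]
        exact hM0
    · have h5 : aeval B (q - C α * X ^ (l + 1)) v - e k =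
          (aeval B q v - e k) - α • (B ^ (l + 1)) v := by
        rw [map_sub, map_mul, aeval_C, map_pow, aeval_X, ← Algebra.smul_def]
        show aeval B q v - α • (B ^ (l + 1)) v - e k = _
        abel
      rw [h5]
      intro i hi
      rw [lp.coeFn_sub, Pi.sub_apply, lp.coeFn_smul, Pi.smul_apply, smul_eq_mul]
      by_cases hi' : i < k + l + 1
      · rw [hq4 i hi', pow_mem hP h hv (l + 1) i (by omega), mul_zero, sub_zero]
      · have hi'' : i = k + l + 1 := by omega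
        have h6 := pow_lead hP h hv hk (l + 1)
        rw [← add_assoc] at h6
        rw [hi'', h6, hα, div_mul_cancel₀ _ hβ, sub_self]

end SOLV

open SOLV in
/-- SOLV: triangular systems, with bounds -/
theorem t_SOLV (hPRJ : S_PRJ) : S_SOLV := by
  intro D B h R
  obtain ⟨hc, hPP, -, -, -, hmem, -, -⟩ := hPRJ D
  have h1 : ∀ k, ∃ K : ℝ, k < D → ∀ v : E, v ∈ N k → (v : ℕ → ℂ) k = 1 → ‖v‖ ≤ R →
      ∃ q : ℂ[X], q.natDegree ≤ D - 1 - k ∧ q.coeff 0 = 1 ∧ (∀ i, ‖q.coeff i‖ ≤ K) ∧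
        aeval B q v - e k ∈ N D := by
    intro k
    by_cases hk : k < D
    · obtain ⟨K, hK⟩ := main hPP h R k (D - 1 - k) (by omega)
      refine ⟨K, fun _ v hv hvk hvR => ?_⟩
      obtain ⟨q, hq1, hq2, hq3, hq4⟩ := hK v hv hvk hvR
      have h2 : k + (D - 1 - k) + 1 = D := by omega
      rw [h2] at hq4
      exact ⟨q, hq1, hq2, hq3, hq4⟩
    · exact ⟨0, fun h => absurd h hk⟩
  choose f hf using h1
  refine ⟨∑ k ∈ range D, |f k|, ?_⟩
  intro k hk v hv hvk hvP hvR
  obtain ⟨q, hq1, hq2, hq3, hq4⟩ := hf k hk v hv hvk hvR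
  refine ⟨q, by omega, hq2, fun i => ?_, ?_⟩
  · refine (hq3 i).trans ((le_abs_self _).trans ?_)
    exact single_le_sum (f := fun k => |f k|) (fun i _ => abs_nonneg _) (mem_range.2 hk)
  · have h3 : P D (aeval B q v - e k) = 0 := (hmem _).1 hq4
    have h4 : ∀ m, P D ((B ^ m) v) = (B ^ m) v := by
      intro m
      rcases m with _ | m
      · exact hvP
      · rw [pow_succ']
        have h5 := PB hPP h
        have h6 := congrArg (fun T : E →L[ℂ] E => T ((B ^ m) v)) h5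
        exact h6
    have h7 : P D (aeval B q v) = aeval B q v := by
      rw [Polynomial.aeval_eq_sum_range, ContinuousLinearMap.sum_apply, map_sum]
      refine sum_congr rfl fun i _ => ?_
      rw [ContinuousLinearMap.smul_apply, map_smul, h4]
    have h8 : P D (e k) = e k := by
      apply lp.ext
      funext i
      rw [hc, e_apply]
      split_ifs with h9 h10 <;> first | rfl | (exfalso; omega)
    rw [map_sub, h7, h8] at h3
    exact sub_eq_zero.1 h3

end H701U
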