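import Pool.Agent.H701U.Stubs

/-!
SUP (helper9): the polynomials `1 - (1 - (1 - X^2)^M)^D`.
-/

namespace H701U

open scoped ENNReal InnerProductSpace
open Finset Polynomial

namespace SUP

/-- `(1-x²)^M (1+M x²) ≤ 1` on `[-1,1]`. -/
lemma pow_mul_le {x : ℝ} (hx : x ^ 2 ≤ 1) (M : ℕ) : (1 - x ^ 2) ^ M * (1 + M * x ^ 2) ≤ 1 := by
  have h0 : 0 ≤ 1 - x ^ 2 := by linarith
  have h1 : 1 + (M : ℝ) * x ^ 2 ≤ (1 + x ^ 2) ^ M :=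
    one_add_mul_le_pow (by nlinarith [sq_nonneg x]) M
  calc (1 - x ^ 2) ^ M * (1 + M * x ^ 2) ≤ (1 - x ^ 2) ^ M * (1 + x ^ 2) ^ M :=
        mul_le_mul_of_nonneg_left h1 (pow_nonneg h0 M)
    _ = ((1 - x ^ 2) * (1 + x ^ 2)) ^ M := (mul_pow _ _ _).symm
    _ ≤ 1 := pow_le_one₀ (by nlinarith [sq_nonneg x]) (by nlinarith [sq_nonneg (x ^ 2)])

/-- `|x| (1-x²)^M ≤ 1/(2√M)`. -/
lemma abs_mul_pow_le {x : ℝ} (hx : x ^ 2 ≤ 1) {M : ℕ} (hM : 0 < M) :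
    |x| * (1 - x ^ 2) ^ M ≤ 1 / (2 * √M) := by
  have h1 := pow_mul_le hx M
  have hM' : (0:ℝ) < M := by exact_mod_cast hM
  have hs : 0 < √(M:ℝ) := Real.sqrt_pos.mpr hM'
  have hs2 : √(M:ℝ) ^ 2 = M := Real.sq_sqrt hM'.le
  have h0 : 0 ≤ (1 - x ^ 2) ^ M := pow_nonneg (by linarith) M
  have hab : |x| ^ 2 = x ^ 2 := sq_abs x
  have h2 : 2 * √(M:ℝ) * |x| ≤ 1 + M * x ^ 2 := by
    have h3 : (1 - √(M:ℝ) * |x|) ^ 2 = 1 + M * x ^ 2 - 2 * √(M:ℝ) * |x| := by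
      rw [sub_sq, mul_pow, hs2, hab]
      ring
    nlinarith [sq_nonneg (1 - √(M:ℝ) * |x|)]
  rw [le_div_iff₀ (by positivity)]
  calc |x| * (1 - x ^ 2) ^ M * (2 * √(M:ℝ)) = (1 - x ^ 2) ^ M * (2 * √(M:ℝ) * |x|) := by ring
    _ ≤ (1 - x ^ 2) ^ M * (1 + M * x ^ 2) := mul_le_mul_of_nonneg_left h2 h0
    _ ≤ 1 := h1

/-- the polynomial -/
noncomputable def rr (D M : ℕ) : ℂ[X] := 1 - (1 - (1 - X ^ 2) ^ M) ^ D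

lemma rr_eval (D M : ℕ) (x : ℝ) : (rr D M).eval (x : ℂ) =
    ((1 - (1 - (1 - x ^ 2) ^ M) ^ D : ℝ) : ℂ) := by
  simp [rr]

lemma rr_dvd (D M : ℕ) : (X : ℂ[X]) ^ D ∣ rr D M - 1 := by
  have h : (X : ℂ[X]) ^ 2 ∣ 1 - (1 - X ^ 2) ^ M := by
    have := sub_dvd_pow_sub_pow (1 : ℂ[X]) (1 - X ^ 2) M
    simpa using this
  have h2 : (X : ℂ[X]) ∣ 1 - (1 - X ^ 2) ^ M := (dvd_pow_self X two_ne_zero).trans h
  have h3 : rr D M - 1 = -((1 - (1 - X ^ 2) ^ M) ^ D) := by simp only [rr]; ring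
  rw [h3, dvd_neg]
  exact pow_dvd_pow_of_dvd h2 D

lemma rr_bounds (D M : ℕ) {x : ℝ} (hx : x ^ 2 ≤ 1) :
    ‖(rr D M).eval (x : ℂ)‖ ≤ 1 ∧ ‖(rr D M).eval (x : ℂ)‖ ≤ D * (1 - x ^ 2) ^ M := by
  rw [rr_eval, Complex.norm_real, Real.norm_eq_abs]
  have h0 : 0 ≤ (1 - x ^ 2) ^ M := pow_nonneg (by linarith) M
  have h1 : (1 - x ^ 2) ^ M ≤ 1 := pow_le_one₀ (by linarith) (by nlinarith [sq_nonneg x])
  set y := (1 - x ^ 2) ^ M with hy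
  have h2 : (1 - y) ^ D ≤ 1 := pow_le_one₀ (by linarith) (by linarith)
  have h3 : 0 ≤ (1 - y) ^ D := pow_nonneg (by linarith) D
  have h4 : 1 + (D : ℝ) * (-y) ≤ (1 + -y) ^ D := one_add_mul_le_pow (by linarith) D
  rw [abs_of_nonneg (by linarith)]
  refine ⟨by linarith, ?_⟩
  have : (1 + -y) = 1 - y := by ring
  rw [this] at h4
  linarith

lemma rr_abs (D M : ℕ) (hM : 0 < M) {x : ℝ} (hx : x ^ 2 ≤ 1) :
    |x| * ‖(rr D M).eval (x : ℂ)‖ ≤ D / (2 * √M) := by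
  have h1 := (rr_bounds D M hx).2
  have h2 := abs_mul_pow_le hx hM
  calc |x| * ‖(rr D M).eval (x : ℂ)‖ ≤ |x| * (D * (1 - x ^ 2) ^ M) :=
        mul_le_mul_of_nonneg_left h1 (abs_nonneg x)
    _ = D * (|x| * (1 - x ^ 2) ^ M) := by ring
    _ ≤ D * (1 / (2 * √M)) := mul_le_mul_of_nonneg_left h2 (Nat.cast_nonneg D)
    _ = D / (2 * √M) := by ring

lemma exists_M (D : ℕ) {ε : ℝ} (hε : 0 < ε) : ∃ M : ℕ, 0 < M ∧ (D : ℝ) / (2 * √M) ≤ ε := by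
  obtain ⟨M, hM⟩ := exists_nat_gt (((D : ℝ) / (2 * ε)) ^ 2)
  have hM0 : (0:ℝ) < M := lt_of_le_of_lt (sq_nonneg _) hM
  refine ⟨M, by exact_mod_cast hM0, ?_⟩
  have hs : (D : ℝ) / (2 * ε) ≤ √M := Real.le_sqrt_of_sq_le hM.le
  have hs0 : 0 < √(M:ℝ) := Real.sqrt_pos.mpr hM0
  rw [div_le_iff₀ (by positivity)] at hs ⊢
  nlinarith

end SUP

theorem t_SUP : S_SUP := by
  intro D ε _ hε
  obtain ⟨M, hM, hMε⟩ := SUP.exists_M D hε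
  refine ⟨SUP.rr D M, SUP.rr_dvd D M, fun x hx => ?_⟩
  have hx2 : x ^ 2 ≤ 1 := by
    rw [← sq_abs]
    exact pow_le_one₀ (abs_nonneg x) hx
  exact ⟨(SUP.rr_bounds D M hx2).1, (SUP.rr_abs D M hM hx2).trans hMε⟩

end H701U
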