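import Pool.Agent.H701U.Defs

/-!
Project UC (MP_546dcb_an): statements `S_X`; task `X` = `theorem t_X (inputs) : S_X`.
-/

namespace H701U

open scoped ENNReal InnerProductSpace
open Finset Polynomial

/-- SCH: Schur test for lower triangular nonnegative matrices -/
def S_SCH : Prop := ∀ m : ℕ → ℕ → ℝ, (∀ i j, 0 ≤ m i j) → (∀ i, ∑ j ∈ range i, m i j ≤ 1) →
  (∀ j n, ∑ i ∈ (range n).filter (fun i => j < i), m i j ≤ 1) →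
  ∃ T : E →L[ℂ] E, ‖T‖ ≤ 1 ∧
    ∀ (x : E) (i : ℕ), (T x : ℕ → ℂ) i = ∑ j ∈ range i, (m i j : ℂ) * x j

/-- BLK: the block function -/
def S_BLK : Prop := ∀ s : ℕ → ℕ, Adm s → ∀ i n, blk s i = n ↔ s n ≤ i ∧ i < s (n + 1)

/-- ROW: row sums -/
def S_ROW : Prop := ∀ s : ℕ → ℕ, Adm s → ∀ i, ∑ j ∈ range i, a s i j ≤ 1

/-- COL: column sums -/
def S_COL : Prop := ∀ s : ℕ → ℕ, Adm s →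
  ∀ j n, ∑ i ∈ (range n).filter (fun i => j < i), a s i j ≤ 1

/-- POS: entries are nonnegative, subdiagonal entries are positive -/
def S_POS : Prop := ∀ s : ℕ → ℕ, Adm s →
  (∀ i j, 0 ≤ a s i j) ∧ (∀ i j, i ≤ j → a s i j = 0) ∧ ∀ j, 0 < a s (j + 1) j

/-- CC: the weights decrease to 0 -/
def S_CC : Prop := ∀ s : ℕ → ℕ, Adm s →
  (∀ n, 0 < c s n) ∧ (∀ n k, n ≤ k → c s k ≤ c s n) ∧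
    Filter.Tendsto (c s) Filter.atTop (nhds 0)

/-- HIL: Hilbert's inequality -/
def S_HIL : Prop := ∀ (I : Finset ℕ) (x y : ℕ → ℂ),
  ‖∑ i ∈ I, ∑ j ∈ I.erase i, x j * (starRingEnd ℂ) (y i) / ((i : ℂ) - j)‖ ≤
    Real.pi * Real.sqrt (∑ i ∈ I, ‖x i‖ ^ 2) * Real.sqrt (∑ i ∈ I, ‖y i‖ ^ 2)

/-- SKEW: the antisymmetric part is small far out -/
def S_SKEW : Prop := ∀ (s : ℕ → ℕ) (T : E →L[ℂ] E), Adm s → IsT s T → ∀ n, ∀ x y : E,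
  y ∈ N (s (n + 1)) → ‖⟪y, T x⟫_ℂ - ⟪T y, x⟫_ℂ‖ ≤ 6 * c s (n + 1) * ‖x‖ * ‖y‖

/-- PRJ: basic facts on the coordinate projections -/
def S_PRJ : Prop := ∀ D : ℕ,
  (∀ (x : E) (i : ℕ), (P D x : ℕ → ℂ) i = if i < D then x i else 0) ∧ P D * P D = P D ∧
  ContinuousLinearMap.adjoint (P D) = P D ∧ ‖P D‖ ≤ 1 ∧ ‖1 - P D‖ ≤ 1 ∧
  (∀ x : E, x ∈ N D ↔ P D x = 0) ∧ (∀ x : E, x - P D x ∈ N D) ∧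
  (∀ x : E, Filter.Tendsto (fun n => ‖x - P n x‖) Filter.atTop (nhds 0))

/-- ADJ: operator norm form of SKEW -/
def S_ADJ : Prop := ∀ (s : ℕ → ℕ) (T : E →L[ℂ] E), Adm s → IsT s T → ∀ n,
  ‖(1 - P (s (n + 1))) * (T - ContinuousLinearMap.adjoint T)‖ ≤ 6 * c s (n + 1)

/-- LOW: `T` is strictly lower triangular with nonzero subdiagonal -/
def S_LOW : Prop := ∀ (s : ℕ → ℕ) (T : E →L[ℂ] E), Adm s → IsT s T →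
  (∀ k, ∀ x ∈ N k, T x ∈ N (k + 1)) ∧ (∀ x, (T x : ℕ → ℂ) 0 = 0) ∧
  (∀ k, (T (e k) : ℕ → ℂ) (k + 1) ≠ 0)

/-- NIL: the compressions are nilpotent Jordan blocks -/
def S_NIL : Prop := ∀ (s : ℕ → ℕ) (T : E →L[ℂ] E), Adm s → IsT s T →
  ∀ D, NilD D (P D * T * P D)

/-- PRE: the compression to the blocks `0..n` depends only on `s 0, ..., s (n+1)` -/
def S_PRE : Prop := ∀ (s s' : ℕ → ℕ) (T T' : E →L[ℂ] E), Adm s → Adm s' → IsT s T → IsT s' T' →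
  ∀ n, (∀ i, i ≤ n + 1 → s i = s' i) →
    P (s (n + 1)) * T * P (s (n + 1)) = P (s (n + 1)) * T' * P (s (n + 1))

/-- POW: `B ^ D = 0` -/
def S_POW : Prop := ∀ (D : ℕ) (B : E →L[ℂ] E), 1 ≤ D → NilD D B → B ^ D = 0

/-- SOLV: triangular systems, with bounds -/
def S_SOLV : Prop := ∀ (D : ℕ) (B : E →L[ℂ] E), NilD D B → ∀ R : ℝ, ∃ R' : ℝ,
  ∀ k < D, ∀ v : E, v ∈ N k → (v : ℕ → ℂ) k = 1 → P D v = v → ‖v‖ ≤ R →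
    ∃ q : ℂ[X], q.natDegree < D ∧ q.coeff 0 = 1 ∧ (∀ i, ‖q.coeff i‖ ≤ R') ∧
      aeval B q v = e k

/-- SUP: the polynomials `1 - (1 - (1 - X^2)^M)^D` -/
def S_SUP : Prop := ∀ (D : ℕ) (ε : ℝ), 1 ≤ D → 0 < ε → ∃ r : ℂ[X],
  (X ^ D ∣ r - 1) ∧ (∀ x : ℝ, |x| ≤ 1 → ‖r.eval (x : ℂ)‖ ≤ 1 ∧ |x| * ‖r.eval (x : ℂ)‖ ≤ ε)

/-- LIP: polynomials with bounded coefficients are uniformly Lipschitz on operators -/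
def S_LIP : Prop := ∀ (d : ℕ) (K : ℝ), ∃ Γ : ℝ, 0 ≤ Γ ∧ ∀ p : ℂ[X], p.natDegree ≤ d →
  (∀ i, ‖p.coeff i‖ ≤ K) → ∀ S W : E →L[ℂ] E, ‖S‖ ≤ 2 → ‖W‖ ≤ 2 →
    ‖aeval S p - aeval W p‖ ≤ Γ * ‖S - W‖

/-- POLY: prescribed jet at 0, small on `[-1,1]` -/
def S_POLY : Prop := ∀ (D : ℕ) (R' : ℝ), 1 ≤ D → ∃ Γ : ℝ, 0 ≤ Γ ∧ ∀ q : ℂ[X],
  q.natDegree < D → q.coeff 0 = 1 → (∀ i, ‖q.coeff i‖ ≤ R') →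
    ∃ p : ℂ[X], (X ^ D ∣ p - q) ∧ (∀ x : ℝ, |x| ≤ 1 → ‖p.eval (x : ℂ)‖ ≤ 2) ∧
      (∀ S W : E →L[ℂ] E, ‖S‖ ≤ 2 → ‖W‖ ≤ 2 → ‖aeval S p - aeval W p‖ ≤ Γ * ‖S - W‖)

/-- SA: functional calculus of a selfadjoint contraction -/
def S_SA : Prop := ∀ (A : E →L[ℂ] E) (p : ℂ[X]), IsSelfAdjoint A → ‖A‖ ≤ 1 →
  (∀ x : ℝ, |x| ≤ 1 → ‖p.eval (x : ℂ)‖ ≤ 2) → ‖aeval A p‖ ≤ 2

/-- DIR: polynomials in `B + A` with `B` on the first `D` coordinates and `A` on the others -/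
def S_DIR : Prop := ∀ (D : ℕ) (A B : E →L[ℂ] E), P D * B * P D = B →
  (1 - P D) * A * (1 - P D) = A → ∀ (p : ℂ[X]) (f : E),
    aeval (B + A) p f = aeval B p (P D f) + aeval A p (f - P D f)

/-- STG: one stage -/
def S_STG : Prop := ∀ (D : ℕ) (B : E →L[ℂ] E), 1 ≤ D → NilD D B → ∀ R : ℝ, 0 < R →
  ∃ δ : ℝ, 0 < δ ∧ ∀ T : E →L[ℂ] E, ‖T‖ ≤ 1 → P D * T * P D = B →
    (∀ x ∈ N D, T x ∈ N D) → ‖(1 - P D) * (T - ContinuousLinearMap.adjoint T)‖ ≤ δ →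
    ∀ k < D, ∀ f : E, f ∈ N k → (f : ℕ → ℂ) k = 1 → ‖f‖ ≤ R →
      ∃ p : ℂ[X], ‖aeval T p f - e k‖ ≤ 1 / R + 2 * ‖f - P D f‖

/-- REC: fast growing sequences -/
def S_REC : Prop := ∀ G : (ℕ → ℕ) → ℕ → ℕ,
  (∀ (s s' : ℕ → ℕ) (n : ℕ), (∀ i, i ≤ n + 1 → s i = s' i) → G s n = G s' n) →
  ∃ s : ℕ → ℕ, Adm s ∧ ∀ n, G s n ≤ s (n + 2)

/-- SEQ: there is a sequence for which every stage works -/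
def S_SEQ : Prop := ∃ (s : ℕ → ℕ) (T : E →L[ℂ] E), Adm s ∧ IsT s T ∧ ‖T‖ ≤ 1 ∧
  ∀ n : ℕ, ∀ k < s (n + 1), ∀ f : E, f ∈ N k → (f : ℕ → ℂ) k = 1 → ‖f‖ ≤ n + 1 →
    ∃ p : ℂ[X], ‖aeval T p f - e k‖ ≤ 1 / (n + 1 : ℝ) + 2 * ‖f - P (s (n + 1)) f‖

/-- CYC: a vector of `M` with first nonzero coordinate `k` gives `e k ∈ M` -/
def S_CYC : Prop := ∀ (T : E →L[ℂ] E) (D : ℕ → ℕ), (∀ n, n ≤ D n) →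
  (∀ n : ℕ, ∀ k < D n, ∀ f : E, f ∈ N k → (f : ℕ → ℂ) k = 1 → ‖f‖ ≤ n + 1 →
    ∃ p : ℂ[X], ‖aeval T p f - e k‖ ≤ 1 / (n + 1 : ℝ) + 2 * ‖f - P (D n) f‖) →
  ∀ M : Submodule ℂ E, IsClosed (M : Set E) → (∀ x ∈ M, T x ∈ M) →
    ∀ k, ∀ f ∈ M, f ∈ N k → (f : ℕ → ℂ) k ≠ 0 → e k ∈ M

/-- LAT: the lattice -/
def S_LAT : Prop := ∀ T : E →L[ℂ] E, (∀ k, ∀ x ∈ N k, T x ∈ N (k + 1)) →
  (∀ k, (T (e k) : ℕ → ℂ) (k + 1) ≠ 0) → ∀ M : Submodule ℂ E, IsClosed (M : Set E) →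
  (∀ x ∈ M, T x ∈ M) →
  (∀ k, ∀ f ∈ M, f ∈ N k → (f : ℕ → ℂ) k ≠ 0 → e k ∈ M) → M = ⊥ ∨ ∃ k, M = N k

/-- TST: test vectors -/
def S_TST : Prop := ∀ (s : ℕ → ℕ) (T : E →L[ℂ] E), Adm s → IsT s T → ∀ n, ∃ u : E,
  u ∈ N (s n) ∧ ‖u‖ = 1 ∧ 1 / 4 ≤ (⟪u, T u⟫_ℂ).re

/-- PWR: powers do not decay -/
def S_PWR : Prop := ∀ (T : E →L[ℂ] E) (d : ℕ → ℕ) (δ : ℕ → ℝ) (u : ℕ → E), ‖T‖ ≤ 1 →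
  (∀ n, ∀ x ∈ N (d n), T x ∈ N (d n)) → (∀ n, u n ∈ N (d n)) → (∀ n, ‖u n‖ = 1) →
  (∀ n, 1 / 4 ≤ (⟪u n, T (u n)⟫_ℂ).re) → Filter.Tendsto δ Filter.atTop (nhds 0) →
  (∀ n, ∀ x y : E, x ∈ N (d n) → y ∈ N (d n) →
    ‖⟪y, T x⟫_ℂ - ⟪T y, x⟫_ℂ‖ ≤ δ n * ‖x‖ * ‖y‖) →
  ∀ q : ℕ, (1 / 4 : ℝ) ^ (2 ^ q) ≤ ‖T ^ (2 ^ q)‖

/-- RAD: a nonzero point of the spectrum -/
def S_RAD : Prop := ∀ T : E →L[ℂ] E, (∀ q : ℕ, (1 / 4 : ℝ) ^ (2 ^ q) ≤ ‖T ^ (2 ^ q)‖) →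
  ∃ μ ∈ spectrum ℂ T, 1 / 4 ≤ ‖μ‖

/-- ZER: `0` is in the spectrum -/
def S_ZER : Prop := ∀ T : E →L[ℂ] E, (∀ x, (T x : ℕ → ℂ) 0 = 0) → (0 : ℂ) ∈ spectrum ℂ T

/-- MAIN -/
def S_MAIN : Prop := ∃ T : E →L[ℂ] E,
  (∀ M : Submodule ℂ E, IsClosed (M : Set E) → (∀ x ∈ M, T x ∈ M) → M = ⊥ ∨ ∃ k, M = N k) ∧
  (0 : ℂ) ∈ spectrum ℂ T ∧ ∃ μ ∈ spectrum ℂ T, 1 / 4 ≤ ‖μ‖

end H701U
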