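import Pool.Agent.H701U.Stubs

/-!
Task ZER: `0` is in the spectrum.
-/

namespace H701U

theorem t_ZER : S_ZER := by
  intro T hT
  rw [spectrum.zero_mem_iff]
  rintro ⟨u, hu⟩
  have h1 : T * ((u⁻¹ : (E →L[ℂ] E)ˣ) : E →L[ℂ] E) = 1 := by
    rw [← hu]
    exact u.mul_inv
  have h2 : T (((u⁻¹ : (E →L[ℂ] E)ˣ) : E →L[ℂ] E) (e 0)) = e 0 := by
    have h3 := congrArg (fun S : E →L[ℂ] E => S (e 0)) h1
    simpa using h3
  have h4 := hT (((u⁻¹ : (E →L[ℂ] E)ˣ) : E →L[ℂ] E) (e 0))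
  rw [h2] at h4
  simp [e] at h4

end H701U
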